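import Pool.Agent.U59.HB.SpreadMain
import Pool.Agent.H319R2.GUnif
import Pool.Agent.H319R2.GContr

/-! Consequences of `spread`: forward invariant sets, orbits, cycles and merging tuples above `Y`. -/

set_option autoImplicit false

namespace Pool.Agent.U59.HB

open Finset Pool.Agent.H319R3.GC Pool.Agent.H828R3.GP

variable {d : ℕ} {m r : ℕ → ℤ}

/-- the trajectory meets `A` before it takes a value of modulus `< Y` -/
def Meets (d : ℕ) (m r : ℕ → ℤ) (A : Set ℤ) (Y : ℝ) (x : ℤ) : Prop :=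
  ∃ n : ℕ, (Tm d m r)^[n] x ∈ A ∧ ∀ j ≤ n, Y ≤ |(((Tm d m r)^[j] x : ℤ) : ℝ)|

theorem fin_abs (X : ℝ) (P : ℤ → Prop) : {x : ℤ | |(x : ℝ)| ≤ X ∧ P x}.Finite := by
  apply (Set.finite_Icc (-⌈X⌉) ⌈X⌉).subset
  rintro x ⟨hx, -⟩
  have h1 := abs_le.1 hx
  have h2 := Int.le_ceil X
  rw [Set.mem_Icc]
  constructor
  · have : (-(⌈X⌉ : ℤ) : ℝ) ≤ x := by linarith
    exact_mod_cast this
  · have : (x : ℝ) ≤ (⌈X⌉ : ℤ) := by linarith
    exact_mod_cast this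

theorem fin_lt (A : Set ℤ) (Y : ℝ) : {x : ℤ | x ∈ A ∧ |(x : ℝ)| < Y}.Finite := by
  apply (fin_abs Y (fun _ => True)).subset
  rintro x ⟨-, hx⟩
  exact ⟨hx.le, trivial⟩

theorem iter_mem {A : Set ℤ} (hA : ∀ x ∈ A, Tm d m r x ∈ A) (n : ℕ) {x : ℤ} (hx : x ∈ A) :
    (Tm d m r)^[n] x ∈ A := by
  induction n with
  | zero => simpa using hx
  | succ n ih => rw [Function.iterate_succ_apply']; exact hA _ ih

theorem meets_SE {A : Set ℤ} (hA : ∀ x ∈ A, Tm d m r x ∈ A) {Y : ℝ} {x : ℤ}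
    (hx : Meets d m r A Y x) : x ∈ SE d m r Y (fin_lt A Y).toFinset := by
  obtain ⟨n, h1, h2⟩ := hx
  refine ⟨by simpa using h2 0 (Nat.zero_le _), fun n' hn' => ?_⟩
  have hlt : n < n' := by
    by_contra hcon
    exact absurd hn'.2 (not_lt.2 (h2 n' (not_lt.1 hcon)))
  rw [Set.Finite.mem_toFinset]
  refine ⟨?_, hn'.2⟩
  have e : n' = (n' - n) + n := by omega
  rw [e, Function.iterate_add_apply]
  exact iter_mem hA _ h1

/-- forward invariant sets are met low -/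
theorem meet_fwd (h : Adm d m r) {s η : ℝ}
    (hs : 0 ≤ s) (hη0 : 0 ≤ η) (hη1 : η < 1) (hsum : ∑ j ∈ range d, (|(m j : ℝ)| / d) ^ s ≤ (d : ℝ) ^ η)
    {c ε : ℝ} (hc0 : 0 < c) (hc : c < 1 - η) (hε : 0 < ε) : ∃ C : ℝ, 0 < C ∧
    ∀ A : Set ℤ, (∀ x ∈ A, Tm d m r x ∈ A) → ∀ X Y : ℝ, 1 ≤ X → 1 ≤ Y →
    ({x : ℤ | |(x : ℝ)| ≤ X ∧ Meets d m r A Y x}.ncard : ℝ) ≤
      C * X * (Y ^ (-c) + ({x : ℤ | x ∈ A ∧ |(x : ℝ)| < Y}.ncard : ℝ) * Y ^ (ε - 1)) := by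
  obtain ⟨C, hC, hsp⟩ := spread h hs hη0 hη1 hsum hc0 hc hε
  refine ⟨C, hC, fun A hA X Y hX hY => ?_⟩
  have h1 := hsp (fin_lt A Y).toFinset X Y hX hY
  rw [← Set.ncard_eq_toFinset_card _ (fin_lt A Y)] at h1
  refine le_trans ?_ h1
  have h2 : {x : ℤ | |(x : ℝ)| ≤ X ∧ Meets d m r A Y x} ⊆
      {x : ℤ | |(x : ℝ)| ≤ X ∧ x ∈ SE d m r Y (fin_lt A Y).toFinset} :=
    fun x hx => ⟨hx.1, meets_SE hA hx.2⟩
  exact_mod_cast Set.ncard_le_ncard h2 (fin_abs X _)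

theorem trivial_lt {A : Set ℤ} {Y : ℝ} (hY : 1 ≤ Y) (F : Finset ℤ)
    (hF : ∀ y ∈ F, y ∈ A ∧ |(y : ℝ)| < Y) : (F.card : ℝ) ≤ 3 * Y := by
  have h2 := ncard_trivial Y hY (F : Set ℤ) (fun x hx => (hF x hx).2.le)
  rwa [Set.ncard_coe_finset] at h2

/-- tame sets are sparse -/
theorem tame_card (h : Adm d m r) {s η : ℝ}
    (hs : 0 ≤ s) (hη0 : 0 < η) (hsum : ∑ j ∈ range d, (|(m j : ℝ)| / d) ^ s < (d : ℝ) ^ η) :
    ∃ C : ℝ, 0 < C ∧ ∀ A : Set ℤ, Pool.Agent.H319R2.G.Tame (Tm d m r) A → ∀ Y : ℝ, 1 ≤ Y →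
      ∀ F : Finset ℤ, (∀ y ∈ F, y ∈ A ∧ |(y : ℝ)| < Y) → (F.card : ℝ) ≤ C * Y ^ η := by
  obtain ⟨C, hC, hsp⟩ := Pool.Agent.H319R2.G.GC.sparse_unif (gc h) s η hs hη0 hsum
  obtain ⟨Q, hQ1, hQR⟩ : ∃ Q : ℕ, 1 ≤ Q ∧ (gc h).R ≤ Q :=
    ⟨⌈(gc h).R⌉₊ + 1, by omega, by push_cast; linarith [Nat.le_ceil (gc h).R]⟩
  have hQ0 : (1 : ℝ) ≤ Q := by exact_mod_cast hQ1
  refine ⟨C * Q + 3 * Q, by positivity, fun A hA Y hY F hF => ?_⟩
  have hY0 : 0 < Y := by linarith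
  have hYη : 1 ≤ Y ^ η := Real.one_le_rpow hY hη0.le
  rcases lt_or_ge Y (Q : ℝ) with hlt | hge
  · have h1 := trivial_lt hY F hF
    have h2 : 0 ≤ C * Q * Y ^ η := by positivity
    nlinarith
  · have h1 := hsp (gc h) rfl rfl Q hQ1 hQR A hA Y hge F (fun x hx => ⟨(hF x hx).1, (hF x hx).2.le⟩)
    have h2 : (Y / Q) ^ η ≤ Y ^ η := by
      apply Real.rpow_le_rpow (by positivity) _ hη0.le
      exact div_le_self hY0.le hQ0
    have h3 : C * Q * (Y / Q) ^ η ≤ C * Q * Y ^ η := mul_le_mul_of_nonneg_left h2 (by positivity)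
    have h4 : 0 ≤ 3 * (Q : ℝ) * Y ^ η := by positivity
    nlinarith

/-- orbits are sparse, uniformly -/
theorem orbit_card (h : Adm d m r) {s η : ℝ}
    (hs : 0 ≤ s) (hη0 : 0 < η) (hsum : ∑ j ∈ range d, (|(m j : ℝ)| / d) ^ s < (d : ℝ) ^ η) :
    ∃ C : ℝ, 0 < C ∧ ∀ b : ℤ, ∀ Y : ℝ, 1 ≤ Y →
      ({x : ℤ | x ∈ {z : ℤ | ∃ i : ℕ, (Tm d m r)^[i] b = z} ∧ |(x : ℝ)| < Y}.ncard : ℝ) ≤ C * Y ^ η := by
  obtain ⟨C, hC, hsp⟩ := tame_card h hs hη0 hsum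
  refine ⟨C, hC, fun b Y hY => ?_⟩
  rw [Set.ncard_eq_toFinset_card _ (fin_lt _ Y)]
  set F := (fin_lt {z : ℤ | ∃ i : ℕ, (Tm d m r)^[i] b = z} Y).toFinset with hF
  have hFm : ∀ y ∈ F, (∃ i : ℕ, (Tm d m r)^[i] b = y) ∧ |(y : ℝ)| < Y := by
    intro y hy
    rw [hF, Set.Finite.mem_toFinset] at hy
    exact hy
  obtain ⟨q, hinj, hq⟩ := Pool.Agent.H319R2.G.finite_subset_path (Tm d m r) b F (fun y hy => (hFm y hy).1)
  exact hsp _ (Pool.Agent.H319R2.G.tame_path (Tm d m r) b q hinj) Y hY F (fun y hy => by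
    obtain ⟨i, hi, hiy⟩ := hq y hy
    exact ⟨⟨i, hi, hiy⟩, (hFm y hy).2⟩)

/-- the set of all cycles is sparse -/
theorem cycles_card (h : Adm d m r) {s η : ℝ}
    (hs : 0 ≤ s) (hη0 : 0 < η) (hsum : ∑ j ∈ range d, (|(m j : ℝ)| / d) ^ s < (d : ℝ) ^ η) :
    ∃ C : ℝ, 0 < C ∧ ∀ Y : ℝ, 1 ≤ Y →
      ({x : ℤ | x ∈ Function.periodicPts (Tm d m r) ∧ |(x : ℝ)| < Y}.ncard : ℝ) ≤ C * Y ^ η := by
  obtain ⟨C, hC, hsp⟩ := tame_card h hs hη0 hsum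
  refine ⟨C, hC, fun Y hY => ?_⟩
  rw [Set.ncard_eq_toFinset_card _ (fin_lt _ Y)]
  exact hsp _ (Pool.Agent.H319R2.G.tame_periodic (Tm d m r)) Y hY _ (fun y hy => by
    rw [Set.Finite.mem_toFinset] at hy
    exact hy)

/-- admissible exponents -/
def Adc (d : ℕ) (m : ℕ → ℤ) (c : ℝ) : Prop :=
  0 < c ∧ c < 1 ∧ ∃ s : ℝ, 0 ≤ s ∧ ∑ j ∈ range d, |(m j : ℝ) / d| ^ s < (d : ℝ) ^ (1 - c)

theorem Adc.split {c : ℝ} (hd : 2 ≤ d) (hc : Adc d m c) : ∃ s η : ℝ, 0 ≤ s ∧ 0 ≤ η ∧ η < 1 - c ∧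
    ∑ j ∈ range d, (|(m j : ℝ)| / d) ^ s ≤ (d : ℝ) ^ η ∧
    ∀ η' : ℝ, η < η' → ∑ j ∈ range d, (|(m j : ℝ)| / d) ^ s < (d : ℝ) ^ η' := by
  obtain ⟨hc0, hc1, s, hs, hsum⟩ := hc
  have hdR : (2 : ℝ) ≤ d := by exact_mod_cast hd
  have hd0 : (0 : ℝ) < d := by linarith
  have hd1 : (1 : ℝ) < d := by linarith
  have hlogd : 0 < Real.log d := Real.log_pos hd1
  have e : ∑ j ∈ range d, |(m j : ℝ) / d| ^ s = ∑ j ∈ range d, (|(m j : ℝ)| / d) ^ s := by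
    refine sum_congr rfl fun j _ => ?_
    rw [abs_div, abs_of_pos hd0]
  rw [e] at hsum
  set S := ∑ j ∈ range d, (|(m j : ℝ)| / d) ^ s with hS
  have hlt : ∀ η η' : ℝ, S ≤ (d : ℝ) ^ η → η < η' → S < (d : ℝ) ^ η' := fun η η' h1 h2 =>
    lt_of_le_of_lt h1 (Real.rpow_lt_rpow_of_exponent_lt hd1 h2)
  rcases le_or_gt S 1 with hS1 | hS1
  · have h0 : S ≤ (d : ℝ) ^ (0 : ℝ) := by rw [Real.rpow_zero]; exact hS1
    exact ⟨s, 0, hs, le_rfl, by linarith, h0, fun η' => hlt 0 η' h0⟩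
  · have hS0 : 0 < S := by linarith
    have h1 : (d : ℝ) ^ (Real.log S / Real.log d) = S := by
      rw [Real.rpow_def_of_pos hd0, mul_div_cancel₀ _ hlogd.ne', Real.exp_log hS0]
    refine ⟨s, Real.log S / Real.log d, hs, div_nonneg (Real.log_nonneg hS1.le) hlogd.le, ?_, h1.ge,
      fun η' => hlt _ η' h1.ge⟩
    rw [div_lt_iff₀ hlogd]
    have h2 := Real.log_lt_log hS0 hsum
    rwa [Real.log_rpow hd0] at h2

/-- contraction on average gives admissible exponents -/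
theorem exists_Adc (h : Adm d m r) : ∃ c : ℝ, Adc d m c := by
  have hd2 := h.two_le
  have hd0 : (0 : ℝ) < d := by exact_mod_cast (by omega : 0 < d)
  obtain ⟨s, η, hs, hη, hη1, hsum⟩ := (gc h).exists_exp (by
    have e : ∀ i ∈ range (gc h).d, Real.log ((gc h).a i) = Real.log ((m i).natAbs : ℝ) - Real.log d := by
      intro i hi
      have h1 : (gc h).a (i : ℤ) = |(m i : ℝ)| / d := rfl
      have hm0 := m_abs h (mem_range.1 hi)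
      rw [h1, Real.log_div (by positivity) hd0.ne', Nat.cast_natAbs, Int.cast_abs]
    rw [sum_congr rfl e, sum_sub_distrib, sum_const, card_range, nsmul_eq_mul]
    have hgd : (gc h).d = d := rfl
    rw [hgd]
    have hn0 : ∀ i ∈ range d, ((m i).natAbs : ℝ) ≠ 0 := by
      intro i hi
      have hm0 := m_abs h (mem_range.1 hi)
      rw [Nat.cast_natAbs, Int.cast_abs]
      positivity
    rw [← Real.log_prod hn0]
    have h2 : (∏ i ∈ range d, ((m i).natAbs : ℝ)) = (PP d m : ℝ) := by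
      unfold PP; push_cast; rfl
    rw [h2]
    have hP : (0 : ℝ) < PP d m := by
      have := h.big
      exact_mod_cast (by omega : 0 < PP d m)
    have h3 : Real.log (PP d m) < Real.log ((d : ℝ) ^ d) :=
      Real.log_lt_log hP (by exact_mod_cast h.contr)
    rw [Real.log_pow] at h3
    linarith)
  refine ⟨1 - η, by linarith, by linarith, s, hs, ?_⟩
  have e : ∑ j ∈ range d, |(m j : ℝ) / d| ^ s = ∑ i ∈ range (gc h).d, (gc h).a i ^ s := by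
    refine sum_congr rfl fun j _ => ?_
    rw [abs_div, abs_of_pos hd0]
    rfl
  rw [e, show 1 - (1 - η) = η by ring]
  exact hsum

/-- every orbit is met low, uniformly, and so is the union of all cycles -/
theorem meet_orbit (h : Adm d m r) {c : ℝ} (hc : Adc d m c) : ∃ C : ℝ, 0 < C ∧
    ∀ X Y : ℝ, 1 ≤ X → 1 ≤ Y →
    (∀ b : ℤ, ({x : ℤ | |(x : ℝ)| ≤ X ∧ Meets d m r {z : ℤ | ∃ i : ℕ, (Tm d m r)^[i] b = z} Y x}.ncard : ℝ)
      ≤ C * X * Y ^ (-c)) ∧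
    ({x : ℤ | |(x : ℝ)| ≤ X ∧ Meets d m r (Function.periodicPts (Tm d m r)) Y x}.ncard : ℝ)
      ≤ C * X * Y ^ (-c) := by
  obtain ⟨s, η, hs, hη0, hηc, hsum, hsum'⟩ := hc.split h.two_le
  obtain ⟨hc0, hc1, -⟩ := hc
  have hη' : 0 < (η + (1 - c)) / 2 := by linarith
  obtain ⟨C, hC, h1⟩ := meet_fwd h hs hη0 (by linarith) hsum hc0 (by linarith)
    (ε := (1 - c - η) / 2) (by linarith)
  obtain ⟨C₁, hC₁, h2⟩ := orbit_card h hs hη' (hsum' _ (by linarith))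
  obtain ⟨C₂, hC₂, h3⟩ := cycles_card h hs hη' (hsum' _ (by linarith))
  have key : ∀ X Y N K : ℝ, 1 ≤ X → 1 ≤ Y → N ≤ K * Y ^ ((η + (1 - c)) / 2) → K ≤ C₁ + C₂ →
      C * X * (Y ^ (-c) + N * Y ^ ((1 - c - η) / 2 - 1)) ≤ C * (1 + C₁ + C₂) * X * Y ^ (-c) := by
    intro X Y N K hX hY hN hK
    have hY0 : 0 < Y := by linarith
    have h4 : Y ^ ((η + (1 - c)) / 2) * Y ^ ((1 - c - η) / 2 - 1) = Y ^ (-c) := by
      rw [← Real.rpow_add hY0]; congr 1; ring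
    have h5 : N * Y ^ ((1 - c - η) / 2 - 1) ≤ (C₁ + C₂) * Y ^ (-c) := by
      have h6 : 0 < Y ^ ((1 - c - η) / 2 - 1) := Real.rpow_pos_of_pos hY0 _
      calc N * Y ^ ((1 - c - η) / 2 - 1) ≤ (K * Y ^ ((η + (1 - c)) / 2)) * Y ^ ((1 - c - η) / 2 - 1) :=
            mul_le_mul_of_nonneg_right hN h6.le
        _ = K * Y ^ (-c) := by rw [mul_assoc, h4]
        _ ≤ _ := mul_le_mul_of_nonneg_right hK (by positivity)
    have h7 : 0 ≤ C * X := by positivity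
    calc C * X * (Y ^ (-c) + N * Y ^ ((1 - c - η) / 2 - 1))
        ≤ C * X * (Y ^ (-c) + (C₁ + C₂) * Y ^ (-c)) := mul_le_mul_of_nonneg_left (by linarith) h7
      _ = _ := by ring
  refine ⟨C * (1 + C₁ + C₂), by positivity, fun X Y hX hY => ⟨fun b => ?_, ?_⟩⟩
  · refine (h1 _ ?_ X Y hX hY).trans (key X Y _ C₁ hX hY (h2 b Y hY) (by linarith))
    rintro x ⟨i, rfl⟩
    exact ⟨i + 1, Function.iterate_succ_apply' _ _ _⟩
  · exact (h1 _ (fun x hx => (Function.bijOn_periodicPts _).mapsTo hx) X Y hX hY).trans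
      (key X Y _ C₂ hX hY (h3 Y hY) (by linarith))

/-- the orbits of the `x i` have a common element which all of them reach before a value `< Y` -/
def Merge (d : ℕ) (m r : ℕ → ℤ) (Y : ℝ) {ν : ℕ} (x : Fin ν → ℤ) : Prop :=
  ∃ z : ℤ, ∀ i, ∃ n : ℕ, (Tm d m r)^[n] (x i) = z ∧ ∀ j ≤ n, Y ≤ |(((Tm d m r)^[j] (x i) : ℤ) : ℝ)|

/-- two trajectories that merge above `Y` have the same first value below `Y` -/
theorem same_entrance {Y : ℝ} {x x' z : ℤ} {n n' : ℕ} (hx : (Tm d m r)^[n] x = z)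
    (hx2 : ∀ j ≤ n, Y ≤ |(((Tm d m r)^[j] x : ℤ) : ℝ)|) (hx' : (Tm d m r)^[n'] x' = z)
    (hx2' : ∀ j ≤ n', Y ≤ |(((Tm d m r)^[j] x' : ℤ) : ℝ)|) {k : ℕ} (hk : FY d m r Y k x) :
    ∃ k' : ℕ, FY d m r Y k' x' ∧ (Tm d m r)^[k'] x' = (Tm d m r)^[k] x := by
  have hnk : n < k := by
    by_contra hcon
    exact absurd hk.2 (not_lt.2 (hx2 k (not_lt.1 hcon)))
  have hshift : ∀ j : ℕ, (Tm d m r)^[j + n'] x' = (Tm d m r)^[j + n] x := by
    intro j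
    rw [Function.iterate_add_apply, Function.iterate_add_apply, hx, hx']
  refine ⟨(k - n) + n', ⟨?_, ?_⟩, ?_⟩
  · intro j hj
    rcases le_or_gt j n' with h1 | h1
    · exact hx2' j h1
    · have e : j = (j - n') + n' := by omega
      rw [e, hshift]
      exact hk.1 _ (by omega)
  · rw [hshift]
    have e : k - n + n = k := by omega
    rw [e]
    exact hk.2
  · rw [hshift]
    congr 1
    have e : k - n + n = k := by omega
    rw [e]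

theorem FY_unique {Y : ℝ} {x : ℤ} {k k' : ℕ} (h1 : FY d m r Y k x) (h2 : FY d m r Y k' x) : k = k' := by
  rcases Nat.lt_trichotomy k k' with h | h | h
  · exact absurd h1.2 (not_lt.2 (h2.1 k h))
  · exact h
  · exact absurd h2.2 (not_lt.2 (h1.1 k' h))

end Pool.Agent.U59.HB
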