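import Pool.Agent.H319R3.GC.S3
import Pool.Agent.H319R3.GC.I1
import Pool.Agent.H828R3.GP.Stage

/-! The one stage inequality for sets which are forward invariant except at one point. -/

set_option autoImplicit false

namespace Pool.Agent.U59.HB
open Finset Pool.Agent.H319R3.GC Pool.Agent.H828R3.GP

variable {d : ℕ} {m r : ℕ → ℤ}

open scoped Classical in
/-- elements of `S` (forward invariant) of the window whose itinerary is in the group of `M` and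
whose `k`-th iterate lies in the window of `a' = |M| a / d^k` -/
theorem group_count' (h : Adm d m r) {S S0 : Set ℤ} {k : ℕ} (hSk : ∀ x ∈ S0, (Tm d m r)^[k] x ∈ S) {a : ℝ} (ha : 0 < a)
    {Q Q₀ : ℕ} (hQ : 0 < Q) (hQ₀ : 0 < Q₀) (hQQ : Q₀ ∣ Q) (hQd : Nat.Coprime Q d)
    (hk : (d : ℝ) ^ k * Q ≤ a) (c : ℤ) {M : ℤ} (hM : M ∈ Ms d m k) {ρ : ℝ} (hρ : 0 ≤ ρ)
    (hPB : PB S (|(M : ℝ)| * a / (d : ℝ) ^ k) Q₀ ρ) :
    ({x : ℤ | x ∈ S0 ∧ (Q : ℤ) ∣ x - c ∧ Mw m (wd d m r k x) = M ∧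
        |(M : ℝ)| * a / (d : ℝ) ^ k ≤ |(((Tm d m r)^[k] x : ℤ) : ℝ)| ∧
        |(((Tm d m r)^[k] x : ℤ) : ℝ)| < 2 * (|(M : ℝ)| * a / (d : ℝ) ^ k)}.ncard : ℝ)
      ≤ ρ * (gr d m k M).card * (2 * a) / ((d : ℝ) ^ k * Q)
        + 4 * a / ((d : ℝ) ^ k * Q) * tv (gr d m k M) (Ww d m r) Q₀ (M.natAbs * Q) := by
  have hd2 : 2 ≤ d := h.two_le
  have hd0 : (0 : ℝ) < d := by exact_mod_cast (by omega : 0 < d)
  have hdk : (0 : ℝ) < (d : ℝ) ^ k := pow_pos hd0 k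
  have hQR : (0 : ℝ) < Q := by exact_mod_cast hQ
  have hQ0R : (0 : ℝ) < Q₀ := by exact_mod_cast hQ₀
  -- the multiplier
  obtain ⟨w₀, hw₀, hw₀M⟩ := Finset.mem_image.1 hM
  have hM0 : M ≠ 0 := by rw [← hw₀M]; exact Mw_ne_zero h (mem_LW.1 hw₀).2
  have hMd : IsCoprime M (d : ℤ) := by rw [← hw₀M]; exact Mw_cop h (mem_LW.1 hw₀).2
  have hMR : (0 : ℝ) < |(M : ℝ)| := abs_pos.2 (by exact_mod_cast hM0)
  have hMnat : ((M.natAbs : ℕ) : ℝ) = |(M : ℝ)| := by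
    rw [Nat.cast_natAbs, Int.cast_abs]
  set N : ℕ := M.natAbs * Q with hN
  have hNpos : 0 < N := Nat.mul_pos (Int.natAbs_pos.2 hM0) hQ
  have hNR : (N : ℝ) = |(M : ℝ)| * Q := by rw [hN, Nat.cast_mul, hMnat]
  have hNR0 : (0 : ℝ) < N := by exact_mod_cast hNpos
  set a' : ℝ := |(M : ℝ)| * a / (d : ℝ) ^ k with ha'
  have ha'0 : 0 < a' := by positivity
  have ha'N : a' / N = a / ((d : ℝ) ^ k * Q) := by
    rw [ha', hNR]; field_simp
  have hone : 1 ≤ a' / N := by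
    rw [ha'N, le_div_iff₀ (by positivity), one_mul]; exact hk
  set g := gr d m k M with hg
  -- coprimality
  have hdkQ₀ : IsCoprime (-(d : ℤ) ^ k) (Q₀ : ℤ) := by
    have : Nat.Coprime (d ^ k) Q₀ := (Nat.Coprime.coprime_dvd_left hQQ hQd).symm.pow_left k
    have h2 : IsCoprime ((d : ℤ) ^ k) (Q₀ : ℤ) := by
      have := Nat.isCoprime_iff_coprime.2 this
      push_cast at this
      exact this
    exact h2.neg_left
  have hdkN : IsCoprime (-(d : ℤ) ^ k) (N : ℤ) := by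
    have h1 : IsCoprime ((d : ℤ) ^ k) M := (hMd.symm).pow_left
    have h2 : IsCoprime ((d : ℤ) ^ k) (Q : ℤ) := by
      have := Nat.isCoprime_iff_coprime.2 (hQd.symm.pow_left k)
      push_cast at this
      exact this
    have h3 : IsCoprime ((d : ℤ) ^ k) (M * Q) := h1.mul_right h2
    have h4 : IsCoprime ((d : ℤ) ^ k) (N : ℤ) := by
      refine IsCoprime.of_isCoprime_of_dvd_right h3 ?_
      rw [hN, Nat.cast_mul]
      exact mul_dvd_mul (Int.natAbs_dvd.2 dvd_rfl) dvd_rfl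
    exact h4.neg_left
  have hQ0N : Q₀ ∣ N := dvd_mul_of_dvd_right hQQ _
  -- the finite set of endpoints
  have hfinW : {x : ℤ | a' ≤ |(x : ℝ)| ∧ |(x : ℝ)| < 2 * a' ∧ ((1 : ℕ) : ℤ) ∣ x - 0}.Finite :=
    (win_le ha'0.le (by linarith) (Q := 1) (by norm_num) 0).1
  have hfinZ : {z : ℤ | z ∈ S ∧ a' ≤ |(z : ℝ)| ∧ |(z : ℝ)| < 2 * a'}.Finite := by
    apply hfinW.subset
    rintro z ⟨_, h1, h2⟩
    exact ⟨h1, h2, by simp⟩
  set Z : Finset ℤ := hfinZ.toFinset with hZ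
  have hZmem : ∀ z, z ∈ Z ↔ z ∈ S ∧ a' ≤ |(z : ℝ)| ∧ |(z : ℝ)| < 2 * a' := by
    intro z; rw [hZ, Set.Finite.mem_toFinset]; rfl
  -- step 1: the count is at most the sum of the counts of offsets
  have step1 : ({x : ℤ | x ∈ S0 ∧ (Q : ℤ) ∣ x - c ∧ Mw m (wd d m r k x) = M ∧
        a' ≤ |(((Tm d m r)^[k] x : ℤ) : ℝ)| ∧
        |(((Tm d m r)^[k] x : ℤ) : ℝ)| < 2 * a'}.ncard : ℝ)
      ≤ ∑ z ∈ Z, cnt g (Ww d m r) N (M * c - (d : ℤ) ^ k * z) := by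
    set U : Finset (ℤ × List ℕ) := (Z ×ˢ g).filter fun p =>
      (N : ℤ) ∣ Ww d m r p.2 - (M * c - (d : ℤ) ^ k * p.1) with hU
    have hcard : (U.card : ℝ) = ∑ z ∈ Z, cnt g (Ww d m r) N (M * c - (d : ℤ) ^ k * z) := by
      have : U.card = ∑ z ∈ Z, (g.filter fun w =>
          (N : ℤ) ∣ Ww d m r w - (M * c - (d : ℤ) ^ k * z)).card := by
        rw [hU, Finset.card_filter, Finset.sum_product]
        apply Finset.sum_congr rfl
        intro z _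
        rw [Finset.card_filter]
      rw [this, Nat.cast_sum]
      rfl
    rw [← hcard]
    have hle : {x : ℤ | x ∈ S0 ∧ (Q : ℤ) ∣ x - c ∧ Mw m (wd d m r k x) = M ∧
        a' ≤ |(((Tm d m r)^[k] x : ℤ) : ℝ)| ∧
        |(((Tm d m r)^[k] x : ℤ) : ℝ)| < 2 * a'}.ncard ≤ (U : Set (ℤ × List ℕ)).ncard := by
      apply Set.ncard_le_ncard_of_injOn (fun x => ((Tm d m r)^[k] x, wd d m r k x))
      · rintro x ⟨hxS, hxQ, hxM, hx1, hx2⟩
        rw [Finset.mem_coe, hU, Finset.mem_filter, Finset.mem_product]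
        refine ⟨⟨(hZmem _).2 ⟨hSk x hxS, hx1, hx2⟩, ?_⟩, ?_⟩
        · rw [hg]; exact mem_gr.2 ⟨wd_mem hd2 k x, hxM⟩
        · have hit := iter_eq h k x
          rw [hxM] at hit
          have : Ww d m r (wd d m r k x) - (M * c - (d : ℤ) ^ k * (Tm d m r)^[k] x)
              = M * (x - c) := by linarith
          show (N : ℤ) ∣ Ww d m r (wd d m r k x) - (M * c - (d : ℤ) ^ k * (Tm d m r)^[k] x)
          rw [this, hN, Nat.cast_mul]
          exact mul_dvd_mul (Int.natAbs_dvd.2 dvd_rfl) hxQ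
      · rintro x ⟨_, _, hxM, _, _⟩ y ⟨_, _, hyM, _, _⟩ hxy
        have h1 : (Tm d m r)^[k] x = (Tm d m r)^[k] y := congrArg Prod.fst hxy
        have h2 : wd d m r k x = wd d m r k y := congrArg Prod.snd hxy
        have hx := iter_eq h k x
        have hy := iter_eq h k y
        rw [h2, hyM] at hx
        rw [hyM] at hy
        rw [h1] at hx
        have : M * x = M * y := by linarith
        exact mul_left_cancel₀ hM0 this
    rw [Set.ncard_coe_finset] at hle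
    exact_mod_cast hle
  -- the deviations
  set dev : ℤ → ℝ := fun e => |cnt g (Ww d m r) N e - cnt g (Ww d m r) Q₀ e * Q₀ / N| with hdev
  have step2 : ∀ z : ℤ, cnt g (Ww d m r) N (M * c - (d : ℤ) ^ k * z)
      ≤ cnt g (Ww d m r) Q₀ (M * c - (d : ℤ) ^ k * z) * (Q₀ / N)
        + dev (M * c - (d : ℤ) ^ k * z) := by
    intro z
    have := le_abs_self (cnt g (Ww d m r) N (M * c - (d : ℤ) ^ k * z)
      - cnt g (Ww d m r) Q₀ (M * c - (d : ℤ) ^ k * z) * Q₀ / N)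
    simp only [hdev]
    rw [mul_div_assoc] at this
    rw [mul_div_assoc]
    linarith
  -- part 1
  have hper0 : ∀ x : ℤ, cnt g (Ww d m r) Q₀ (x + Q₀) = cnt g (Ww d m r) Q₀ x := by
    intro x; exact cnt_congr g _ (by simp)
  have part1 : ∑ z ∈ Z, cnt g (Ww d m r) Q₀ (M * c - (d : ℤ) ^ k * z)
      ≤ ρ * (2 * a') / Q₀ * g.card := by
    have hs := s2_sum_classes Z hQ₀ (F := fun z => cnt g (Ww d m r) Q₀ (M * c - (d : ℤ) ^ k * z))
      (K := ρ * (2 * a') / Q₀) ?_ ?_ ?_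
    · refine hs.trans (le_of_eq ?_)
      congr 1
      have := sum_affine hQ₀ hper0 hdkQ₀ (M * c)
      rw [← sum_cnt g (Ww d m r) hQ₀, ← this]
      apply Finset.sum_congr rfl
      intro e _
      congr 1
      ring
    · intro x
      show cnt g (Ww d m r) Q₀ (M * c - (d : ℤ) ^ k * (x + Q₀)) = _
      exact cnt_congr g _ ⟨-(d : ℤ) ^ k, by ring⟩
    · intro x; exact cnt_nonneg _ _ _ _
    · intro e
      have hb := hPB e
      unfold wc at hb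
      refine le_trans (le_of_eq ?_) hb
      have : ((Z.filter fun z => (Q₀ : ℤ) ∣ z - e : Finset ℤ) : Set ℤ)
          = {x : ℤ | x ∈ S ∧ a' ≤ |(x : ℝ)| ∧ |(x : ℝ)| < 2 * a' ∧ (Q₀ : ℤ) ∣ x - e} := by
        ext z
        rw [Finset.mem_coe, Finset.mem_filter, hZmem]
        simp only [Set.mem_ofPred_eq]
        tauto
      rw [← this, Set.ncard_coe_finset]
  -- part 2
  have hperN : ∀ x : ℤ, dev (x + N) = dev x := by
    intro x
    simp only [hdev]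
    rw [cnt_congr g (Ww d m r) (D := N) (c := x + N) (c' := x) (by simp),
      cnt_congr g (Ww d m r) (D := Q₀) (c := x + N) (c' := x)
        (by simpa using (Int.natCast_dvd_natCast.2 hQ0N))]
  have part2 : ∑ z ∈ Z, dev (M * c - (d : ℤ) ^ k * z)
      ≤ 4 * a / ((d : ℝ) ^ k * Q) * tv g (Ww d m r) Q₀ N := by
    have hs := s2_sum_classes Z hNpos (F := fun z => dev (M * c - (d : ℤ) ^ k * z))
      (K := 4 * a / ((d : ℝ) ^ k * Q)) ?_ ?_ ?_
    · refine hs.trans (le_of_eq ?_)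
      congr 1
      have := sum_affine hNpos hperN hdkN (M * c)
      rw [tv]
      rw [show (∑ c ∈ range N, |cnt g (Ww d m r) N (c : ℤ) - cnt g (Ww d m r) Q₀ (c : ℤ) * Q₀ / N|)
        = ∑ c ∈ range N, dev (c : ℤ) from rfl, ← this]
      apply Finset.sum_congr rfl
      intro e _
      congr 1
      ring
    · intro x
      show dev (M * c - (d : ℤ) ^ k * (x + N)) = _
      exact s2_per_congr hperN ⟨-(d : ℤ) ^ k, by ring⟩
    · intro x; exact abs_nonneg _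
    · intro e
      have hb := (win_le ha'0.le (by linarith : a' ≤ 2 * a') hNpos e)
      have h1 : (((Z.filter fun z => (N : ℤ) ∣ z - e : Finset ℤ).card : ℕ) : ℝ)
          ≤ ({x : ℤ | a' ≤ |(x : ℝ)| ∧ |(x : ℝ)| < 2 * a' ∧ (N : ℤ) ∣ x - e}.ncard : ℝ) := by
        have : ((Z.filter fun z => (N : ℤ) ∣ z - e : Finset ℤ) : Set ℤ)
            ⊆ {x : ℤ | a' ≤ |(x : ℝ)| ∧ |(x : ℝ)| < 2 * a' ∧ (N : ℤ) ∣ x - e} := by
          intro z hz
          rw [Finset.mem_coe, Finset.mem_filter, hZmem] at hz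
          exact ⟨hz.1.2.1, hz.1.2.2, hz.2⟩
        have h2 := Set.ncard_le_ncard this hb.1
        rw [Set.ncard_coe_finset] at h2
        exact_mod_cast h2
      refine h1.trans (hb.2.trans ?_)
      have : (2 * a' - a') / N = a' / N := by ring
      rw [this]
      have h3 : 4 * a / ((d : ℝ) ^ k * Q) = 4 * (a' / N) := by rw [ha'N]; ring
      rw [h3]
      linarith
  -- conclusion
  calc _ ≤ ∑ z ∈ Z, cnt g (Ww d m r) N (M * c - (d : ℤ) ^ k * z) := step1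
    _ ≤ ∑ z ∈ Z, (cnt g (Ww d m r) Q₀ (M * c - (d : ℤ) ^ k * z) * (Q₀ / N)
        + dev (M * c - (d : ℤ) ^ k * z)) := Finset.sum_le_sum fun z _ => step2 z
    _ = (∑ z ∈ Z, cnt g (Ww d m r) Q₀ (M * c - (d : ℤ) ^ k * z)) * (Q₀ / N)
        + ∑ z ∈ Z, dev (M * c - (d : ℤ) ^ k * z) := by
        rw [Finset.sum_add_distrib, Finset.sum_mul]
    _ ≤ (ρ * (2 * a') / Q₀ * g.card) * (Q₀ / N)
        + 4 * a / ((d : ℝ) ^ k * Q) * tv g (Ww d m r) Q₀ N := by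
        apply add_le_add _ part2
        exact mul_le_mul_of_nonneg_right part1 (by positivity)
    _ = ρ * g.card * (2 * a) / ((d : ℝ) ^ k * Q)
        + 4 * a / ((d : ℝ) ^ k * Q) * tv g (Ww d m r) Q₀ N := by
        congr 1
        rw [s2_part_eq ρ a' (Q₀ : ℝ) (N : ℝ) (g.card : ℝ) hQ0R.ne', ha'N]
        ring


open scoped Classical in
/-- the counting part of the one stage inequality -/
theorem s3_count' (h : Adm d m r) {S S0 : Set ℤ} {k : ℕ} (hSk : ∀ x ∈ S0, (Tm d m r)^[k] x ∈ S) {a : ℝ} (ha : 0 < a)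
    {Q Q₀ i₁ i₂ : ℕ} (hQ : 0 < Q) (hQ₀ : 0 < Q₀) (hQQ : Q₀ ∣ Q) (hQd : Nat.Coprime Q d)
    (hk : (d : ℝ) ^ k * Q ≤ a) (c : ℤ) {ρ : ℝ} (hρ : 0 ≤ ρ) (Bad : Finset (List ℕ)) {V : ℝ}
    (hV0 : 0 ≤ V) (hVa : (d : ℝ) ^ k * V ≤ a)
    (hV : ∀ w ∈ LW d k, w ∉ Bad → |(Ww d m r w : ℝ)| ≤ (d : ℝ) ^ k * V)
    (hcnt : ∀ w ∈ LW d k, w ∉ Bad → PP d m ^ i₁ ∣ (Mw m w).natAbs ∧ (Mw m w).natAbs ∣ PP d m ^ i₂)
    (hPB : ∀ M ∈ (Ms d m k).filter (fun M => PP d m ^ i₁ ∣ M.natAbs ∧ M.natAbs ∣ PP d m ^ i₂),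
      PB S (|(M : ℝ)| * a / (d : ℝ) ^ k) Q₀ ρ) :
    wc S0 a Q c ≤ Bad.card * (4 * a / ((d : ℝ) ^ k * Q)) + 4 * ((d : ℝ) ^ k * V / Q + 1)
      + ρ * (2 * a) / Q
      + 4 * a / ((d : ℝ) ^ k * Q) *
        ∑ M ∈ (Ms d m k).filter (fun M => PP d m ^ i₁ ∣ M.natAbs ∧ M.natAbs ∣ PP d m ^ i₂),
          tv (gr d m k M) (Ww d m r) Q₀ (M.natAbs * Q) := by
  have hd2 : 2 ≤ d := h.two_le
  have hd0 : (0 : ℝ) < d := by exact_mod_cast (by omega : 0 < d)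
  have hdk : (0 : ℝ) < (d : ℝ) ^ k := pow_pos hd0 k
  have hQR : (0 : ℝ) < Q := by exact_mod_cast hQ
  set F := (Ms d m k).filter (fun M => PP d m ^ i₁ ∣ M.natAbs ∧ M.natAbs ∣ PP d m ^ i₂) with hF
  set E : ℝ := (d : ℝ) ^ k * V with hE
  have hE0 : 0 ≤ E := by positivity
  set A1 : Set ℤ := {x : ℤ | a ≤ |(x : ℝ)| ∧ |(x : ℝ)| < 2 * a ∧ (Q : ℤ) ∣ x - c ∧
    wd d m r k x ∈ Bad} with hA1
  set A2 : Set ℤ := {x : ℤ | a ≤ |(x : ℝ)| ∧ |(x : ℝ)| < a + E ∧ (Q : ℤ) ∣ x - c} with hA2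
  set A3 : Set ℤ := {x : ℤ | 2 * a - E ≤ |(x : ℝ)| ∧ |(x : ℝ)| < 2 * a ∧ (Q : ℤ) ∣ x - c} with hA3
  set G : ℤ → Set ℤ := fun M => {x : ℤ | x ∈ S0 ∧ (Q : ℤ) ∣ x - c ∧ Mw m (wd d m r k x) = M ∧
        |(M : ℝ)| * a / (d : ℝ) ^ k ≤ |(((Tm d m r)^[k] x : ℤ) : ℝ)| ∧
        |(((Tm d m r)^[k] x : ℤ) : ℝ)| < 2 * (|(M : ℝ)| * a / (d : ℝ) ^ k)} with hG
  have hsub : {x : ℤ | x ∈ S0 ∧ a ≤ |(x : ℝ)| ∧ |(x : ℝ)| < 2 * a ∧ (Q : ℤ) ∣ x - c}
      ⊆ ((A1 ∪ A2) ∪ A3) ∪ ⋃ M ∈ F, G M := by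
    rintro x ⟨hxS, hx1, hx2, hxQ⟩
    by_cases hbad : wd d m r k x ∈ Bad
    · exact Or.inl (Or.inl (Or.inl ⟨hx1, hx2, hxQ, hbad⟩))
    have hmem := wd_mem (m := m) (r := r) hd2 k x
    have hM0 : Mw m (wd d m r k x) ≠ 0 := Mw_ne_zero h (mem_LW.1 hmem).2
    have hM1 : (1 : ℝ) ≤ |(Mw m (wd d m r k x) : ℝ)| := by
      have := Int.one_le_abs hM0
      have h2 : ((1 : ℤ) : ℝ) ≤ ((|Mw m (wd d m r k x)| : ℤ) : ℝ) := by exact_mod_cast this
      rw [Int.cast_abs] at h2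
      simpa using h2
    have hitR : (d : ℝ) ^ k * (((Tm d m r)^[k] x : ℤ) : ℝ)
        = (Mw m (wd d m r k x) : ℝ) * x - (Ww d m r (wd d m r k x) : ℝ) := by
      exact_mod_cast iter_eq h k x
    have hW := hV _ hmem hbad
    set Mx := Mw m (wd d m r k x) with hMx
    set z : ℝ := (((Tm d m r)^[k] x : ℤ) : ℝ) with hz
    set Wx : ℝ := (Ww d m r (wd d m r k x) : ℝ) with hWx
    have habs1 : |(Mx : ℝ)| * |(x : ℝ)| ≤ (d : ℝ) ^ k * |z| + E := by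
      have : (Mx : ℝ) * x = (d : ℝ) ^ k * z + Wx := by rw [hitR]; ring
      calc |(Mx : ℝ)| * |(x : ℝ)| = |(Mx : ℝ) * x| := (abs_mul _ _).symm
        _ = |(d : ℝ) ^ k * z + Wx| := by rw [this]
        _ ≤ |(d : ℝ) ^ k * z| + |Wx| := abs_add_le _ _
        _ ≤ (d : ℝ) ^ k * |z| + E := by
          rw [abs_mul, abs_of_pos hdk]
          linarith
    have habs2 : (d : ℝ) ^ k * |z| ≤ |(Mx : ℝ)| * |(x : ℝ)| + E := by
      calc (d : ℝ) ^ k * |z| = |(d : ℝ) ^ k * z| := by rw [abs_mul, abs_of_pos hdk]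
        _ = |(Mx : ℝ) * x - Wx| := by rw [hitR]
        _ ≤ |(Mx : ℝ) * x| + |Wx| := abs_sub _ _
        _ ≤ |(Mx : ℝ)| * |(x : ℝ)| + E := by
          rw [abs_mul]
          linarith
    by_cases hz1 : |(Mx : ℝ)| * a / (d : ℝ) ^ k ≤ |z|
    · by_cases hz2 : |z| < 2 * (|(Mx : ℝ)| * a / (d : ℝ) ^ k)
      · refine Or.inr ?_
        rw [Set.mem_iUnion₂]
        refine ⟨Mx, ?_, hxS, hxQ, rfl, hz1, hz2⟩
        rw [hF, Finset.mem_filter]
        exact ⟨Finset.mem_image_of_mem _ hmem, hcnt _ hmem hbad⟩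
      · -- `|z| ≥ 2 a'`
        refine Or.inl (Or.inr ⟨?_, hx2, hxQ⟩)
        rw [not_lt] at hz2
        have h1 : 2 * (|(Mx : ℝ)| * a) ≤ (d : ℝ) ^ k * |z| := by
          have := mul_le_mul_of_nonneg_left hz2 hdk.le
          have e : (d : ℝ) ^ k * (2 * (|(Mx : ℝ)| * a / (d : ℝ) ^ k)) = 2 * (|(Mx : ℝ)| * a) := by
            field_simp
          rwa [e] at this
        have h2 : |(Mx : ℝ)| * (2 * a - |(x : ℝ)|) ≤ E := by nlinarith
        have h3 : 1 * (2 * a - |(x : ℝ)|) ≤ |(Mx : ℝ)| * (2 * a - |(x : ℝ)|) :=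
          mul_le_mul_of_nonneg_right hM1 (by linarith)
        linarith
    · -- `|z| < a'`
      refine Or.inl (Or.inl (Or.inr ⟨hx1, ?_, hxQ⟩))
      rw [not_le] at hz1
      have h1 : (d : ℝ) ^ k * |z| < |(Mx : ℝ)| * a := by
        have := mul_lt_mul_of_pos_left hz1 hdk
        have e : (d : ℝ) ^ k * (|(Mx : ℝ)| * a / (d : ℝ) ^ k) = |(Mx : ℝ)| * a := by
          field_simp
        rwa [e] at this
      have h2 : |(Mx : ℝ)| * (|(x : ℝ)| - a) < E := by nlinarith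
      have h3 : 1 * (|(x : ℝ)| - a) ≤ |(Mx : ℝ)| * (|(x : ℝ)| - a) :=
        mul_le_mul_of_nonneg_right hM1 (by linarith)
      linarith
  -- finiteness
  have hw1 := win_le ha.le (by linarith : a ≤ 2 * a) hQ c
  have hw2 := win_le ha.le (by linarith : a ≤ a + E) hQ c
  have hw3 := win_le (a := 2 * a - E) (b := 2 * a) (by linarith) (by linarith) hQ c
  have hfin1 : A1.Finite := hw1.1.subset (by
    rintro x ⟨h1, h2, h3, _⟩; exact ⟨h1, h2, h3⟩)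
  have hfinG : ∀ M, (G M).Finite := by
    intro M
    apply (s3_fin h k (2 * (|(M : ℝ)| * a / (d : ℝ) ^ k))).subset
    rintro x ⟨_, _, _, _, h2⟩
    exact h2
  have hfinU : (((A1 ∪ A2) ∪ A3) ∪ ⋃ M ∈ F, G M).Finite := by
    refine ((hfin1.union hw2.1).union hw3.1).union ?_
    exact Set.Finite.biUnion F.finite_toSet fun M _ => hfinG M
  have hcard : ({x : ℤ | x ∈ S0 ∧ a ≤ |(x : ℝ)| ∧ |(x : ℝ)| < 2 * a ∧ (Q : ℤ) ∣ x - c}.ncard : ℕ)
      ≤ A1.ncard + A2.ncard + A3.ncard + ∑ M ∈ F, (G M).ncard := by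
    refine (Set.ncard_le_ncard hsub hfinU).trans ?_
    refine (Set.ncard_union_le _ _).trans ?_
    refine add_le_add ?_ (Finset.set_ncard_biUnion_le F G)
    refine (Set.ncard_union_le _ _).trans ?_
    exact add_le_add (Set.ncard_union_le _ _) le_rfl
  have hcardR : wc S0 a Q c ≤ (A1.ncard : ℝ) + A2.ncard + A3.ncard + ∑ M ∈ F, ((G M).ncard : ℝ) := by
    unfold wc
    exact_mod_cast hcard
  have b1 : (A1.ncard : ℝ) ≤ Bad.card * (4 * a / ((d : ℝ) ^ k * Q)) :=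
    bad_words h ha hQ hQd hk c Bad
  have b2 : (A2.ncard : ℝ) ≤ 2 * (E / Q + 1) := by
    have := hw2.2
    have e : a + E - a = E := by ring
    rwa [e] at this
  have b3 : (A3.ncard : ℝ) ≤ 2 * (E / Q + 1) := by
    have := hw3.2
    have e : 2 * a - (2 * a - E) = E := by ring
    rwa [e] at this
  have b4 : ∑ M ∈ F, ((G M).ncard : ℝ) ≤ ρ * (2 * a) / Q + 4 * a / ((d : ℝ) ^ k * Q) *
        ∑ M ∈ F, tv (gr d m k M) (Ww d m r) Q₀ (M.natAbs * Q) := by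
    have hFM : ∀ M ∈ F, M ∈ Ms d m k := fun M hM => (Finset.mem_filter.1 hM).1
    calc ∑ M ∈ F, ((G M).ncard : ℝ)
        ≤ ∑ M ∈ F, (ρ * (gr d m k M).card * (2 * a) / ((d : ℝ) ^ k * Q)
          + 4 * a / ((d : ℝ) ^ k * Q) * tv (gr d m k M) (Ww d m r) Q₀ (M.natAbs * Q)) := by
          apply Finset.sum_le_sum
          intro M hM
          exact group_count' h hSk ha hQ hQ₀ hQQ hQd hk c (hFM M hM) hρ (hPB M hM)
      _ = (∑ M ∈ F, ((gr d m k M).card : ℝ)) * (ρ * (2 * a) / ((d : ℝ) ^ k * Q))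
          + 4 * a / ((d : ℝ) ^ k * Q) * ∑ M ∈ F, tv (gr d m k M) (Ww d m r) Q₀ (M.natAbs * Q) := by
          rw [Finset.sum_add_distrib, Finset.mul_sum, Finset.sum_mul]
          congr 1
          apply Finset.sum_congr rfl
          intro M _
          ring
      _ ≤ (d : ℝ) ^ k * (ρ * (2 * a) / ((d : ℝ) ^ k * Q))
          + 4 * a / ((d : ℝ) ^ k * Q) * ∑ M ∈ F, tv (gr d m k M) (Ww d m r) Q₀ (M.natAbs * Q) := by
          apply add_le_add _ le_rfl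
          apply mul_le_mul_of_nonneg_right _ (by positivity)
          rw [← sum_card_gr (d := d) (m := m) k]
          apply Finset.sum_le_sum_of_subset_of_nonneg
          · intro M hM; exact hFM M hM
          · intro M _ _; positivity
      _ = _ := by
          congr 1
          field_simp
  linarith


end Pool.Agent.U59.HB
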