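import Pool.Agent.U59.HB.Tup
import Pool.Agent.N681.AI.B8

/-! Hitting densities of generalised Collatz maps of coprime type. -/

set_option autoImplicit false

namespace Pool.Agent.U59.HB

open Finset Filter Topology Pool.Agent.H319R3.GC Pool.Agent.H828R3.GP
open Pool.Agent.N681.AI (HasDs AInv hasDs_of_ainv Ent_ainv)

variable {d : ℕ} {m r : ℕ → ℤ}

/-- the integers whose trajectory contains `b` -/
def Hit (d : ℕ) (m r : ℕ → ℤ) (b : ℤ) : Set ℤ := {x : ℤ | ∃ n : ℕ, (Tm d m r)^[n] x = b}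

/-- the integers whose trajectory meets the trajectory of `z` -/
def Cls (d : ℕ) (m r : ℕ → ℤ) (z : ℤ) : Set ℤ := {x : ℤ | ∃ n k : ℕ, (Tm d m r)^[n] x = (Tm d m r)^[k] z}

theorem never_below (h : Adm d m r) {c : ℝ} (hc : Adc d m c) : ∃ C : ℝ, 0 < C ∧
    ∀ X Y : ℝ, 1 ≤ X → 1 ≤ Y →
      ({x : ℤ | |(x : ℝ)| ≤ X ∧ ∀ n : ℕ, Y ≤ |(((Tm d m r)^[n] x : ℤ) : ℝ)|}.ncard : ℝ) ≤ C * X * Y ^ (-c) := by
  obtain ⟨s, η, hs, hη0, hηc, hsum, hsum'⟩ := hc.split h.two_le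
  obtain ⟨hc0, hc1, -⟩ := hc
  obtain ⟨C, hC, hsp⟩ := spread h hs hη0 (by linarith) hsum hc0 (by linarith) (ε := 1) one_pos
  refine ⟨C, hC, fun X Y hX hY => ?_⟩
  have h1 := hsp ∅ X Y hX hY
  rw [card_empty, Nat.cast_zero, zero_mul, add_zero] at h1
  refine le_trans ?_ h1
  have h2 : {x : ℤ | |(x : ℝ)| ≤ X ∧ ∀ n : ℕ, Y ≤ |(((Tm d m r)^[n] x : ℤ) : ℝ)|} ⊆
      {x : ℤ | |(x : ℝ)| ≤ X ∧ x ∈ SE d m r Y ∅} := by
    rintro x ⟨hx, hx2⟩
    exact ⟨hx, by simpa using hx2 0, fun n hn => absurd hn.2 (not_lt.2 (hx2 n))⟩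
  exact_mod_cast Set.ncard_le_ncard h2 (fin_abs X _)

theorem side_fin {σ : ℤ} (hσ : σ = 1 ∨ σ = -1) (S : Set ℤ) (N : ℕ) :
    {x : ℤ | x ∈ S ∧ 1 ≤ σ * x ∧ σ * x ≤ N}.Finite := by
  apply (Set.finite_Icc (-(N : ℤ)) N).subset
  rintro x ⟨-, h1, h2⟩
  rw [Set.mem_Icc]
  rcases hσ with rfl | rfl
  · constructor <;> linarith
  · constructor <;> linarith

/-- comparison of densities -/
theorem dens_le {σ : ℤ} (hσ : σ = 1 ∨ σ = -1) {S S' B : Set ℤ} {a b κ : ℝ} (hsub : S ⊆ S' ∪ B)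
    (hB : ∀ N : ℕ, 1 ≤ N → ({x : ℤ | |(x : ℝ)| ≤ (N : ℝ) ∧ x ∈ B}.ncard : ℝ) ≤ κ * N)
    (hS : HasDs S σ a) (hS' : HasDs S' σ b) : a ≤ b + κ := by
  have h1 : Tendsto (fun N : ℕ => (Set.ncard {x : ℤ | x ∈ S' ∧ 1 ≤ σ * x ∧ σ * x ≤ N} : ℝ) / N + κ)
      atTop (𝓝 (b + κ)) := hS'.add_const κ
  refine le_of_tendsto_of_tendsto hS h1 ?_
  filter_upwards [eventually_ge_atTop 1] with N hN
  have hN0 : (0 : ℝ) < N := by exact_mod_cast hN
  rw [div_add' _ _ _ hN0.ne']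
  apply div_le_div_of_nonneg_right _ hN0.le
  have h2 : {x : ℤ | x ∈ S ∧ 1 ≤ σ * x ∧ σ * x ≤ N} ⊆
      {x : ℤ | x ∈ S' ∧ 1 ≤ σ * x ∧ σ * x ≤ N} ∪ {x : ℤ | |(x : ℝ)| ≤ (N : ℝ) ∧ x ∈ B} := by
    rintro x ⟨hx, h3, h4⟩
    rcases hsub hx with h5 | h5
    · exact Or.inl ⟨h5, h3, h4⟩
    · refine Or.inr ⟨?_, h5⟩
      have h6 : |x| ≤ (N : ℤ) := by
        rw [abs_le]
        rcases hσ with rfl | rfl
        · constructor <;> linarith
        · constructor <;> linarith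
      exact_mod_cast h6
  have h3 := (Set.ncard_le_ncard h2 ((side_fin hσ S' N).union (fin_abs (N : ℝ) _))).trans
    (Set.ncard_union_le _ _)
  have h4 : (Set.ncard {x : ℤ | x ∈ S ∧ 1 ≤ σ * x ∧ σ * x ≤ N} : ℝ) ≤
      Set.ncard {x : ℤ | x ∈ S' ∧ 1 ≤ σ * x ∧ σ * x ≤ N} +
      Set.ncard {x : ℤ | |(x : ℝ)| ≤ (N : ℝ) ∧ x ∈ B} := by exact_mod_cast h3
  linarith [hB N hN]

theorem dens_mono {σ : ℤ} (hσ : σ = 1 ∨ σ = -1) {S S' : Set ℤ} {a b : ℝ} (hsub : S ⊆ S')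
    (hS : HasDs S σ a) (hS' : HasDs S' σ b) : a ≤ b := by
  have := dens_le hσ (B := ∅) (κ := 0) (fun x hx => Or.inl (hsub hx)) (by
    intro N _
    have : {x : ℤ | |(x : ℝ)| ≤ (N : ℝ) ∧ x ∈ (∅ : Set ℤ)} = ∅ := by
      ext x; simp
    rw [this]; simp) hS hS'
  linarith

theorem dens_empty (σ : ℤ) : HasDs ∅ σ 0 := by
  refine tendsto_const_nhds.congr fun N => ?_
  have : {x : ℤ | x ∈ (∅ : Set ℤ) ∧ 1 ≤ σ * x ∧ σ * x ≤ N} = ∅ := by
    ext x; simp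
  rw [this]; simp

theorem dens_nonneg {σ : ℤ} {S : Set ℤ} {a : ℝ} (hS : HasDs S σ a) : 0 ≤ a :=
  ge_of_tendsto' hS fun N => by positivity

theorem dens_le_one {σ : ℤ} (hσ : σ = 1 ∨ σ = -1) {S : Set ℤ} {a : ℝ} (hS : HasDs S σ a) : a ≤ 1 := by
  refine le_of_tendsto' hS fun N => ?_
  apply div_le_one_of_le₀ _ (Nat.cast_nonneg _)
  have h1 : {x : ℤ | x ∈ S ∧ 1 ≤ σ * x ∧ σ * x ≤ N}.ncard ≤ (Set.Icc (1 : ℤ) N).ncard := by
    apply Set.ncard_le_ncard_of_injOn (fun x => σ * x)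
    · rintro x ⟨-, h1, h2⟩
      exact ⟨h1, h2⟩
    · intro x _ y _ hxy
      simp only at hxy
      rcases hσ with rfl | rfl <;> linarith
  have h2 : (Set.Icc (1 : ℤ) N).ncard = N := by
    rw [← Finset.coe_Icc, Set.ncard_coe_finset, Int.card_Icc]
    simp
  rw [h2] at h1
  exact_mod_cast h1

theorem hit_dens (h : Adm d m r) {i j : ℕ} (hi : i < d) (hj : j < d)
    (hij : (m i).natAbs ≠ (m j).natAbs) : ∃ D : ℤ → ℤ → ℝ, ∀ σ : ℤ, (σ = 1 ∨ σ = -1) → ∀ b : ℤ,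
      HasDs (Hit d m r b) σ (D σ b) := by
  classical
  have key : ∀ b : ℤ, ∃ p q : ℝ, HasDs (Hit d m r b) 1 p ∧ HasDs (Hit d m r b) (-1) q := by
    intro b
    obtain ⟨c₀, hS⟩ := Ent_ainv h (F := {b}) (Set.finite_singleton b) (a := b) rfl
    obtain ⟨p, q, h1, h2, -⟩ := hasDs_of_ainv h hi hj hij hS
    have he : Pool.Agent.N681.AI.Ent d m r {b} b = Hit d m r b := by
      ext x
      constructor
      · rintro ⟨k, hk, -⟩
        exact ⟨k, hk⟩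
      · rintro hk
        have hex : ∃ n : ℕ, (Tm d m r)^[n] x = b := hk
        exact ⟨Nat.find hex, Nat.find_spec hex, fun l hl => Nat.find_min hex hl⟩
    rw [he] at h1 h2
    exact ⟨p, q, h1, h2⟩
  choose p q hp hq using key
  refine ⟨fun σ b => if σ = 1 then p b else q b, fun σ hσ b => ?_⟩
  rcases hσ with rfl | rfl
  · simp only [if_true]; exact hp b
  · have : ¬ ((-1 : ℤ) = 1) := by norm_num
    simp only [if_neg this]; exact hq b

theorem cls_inv (z : ℤ) (x : ℤ) : x ∈ Cls d m r z ↔ Tm d m r x ∈ Cls d m r z := by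
  constructor
  · rintro ⟨n, k, h1⟩
    refine ⟨n, k + 1, ?_⟩
    rw [← Function.iterate_succ_apply, Function.iterate_succ_apply', h1, Function.iterate_succ_apply']
  · rintro ⟨n, k, h1⟩
    exact ⟨n + 1, k, by rw [Function.iterate_succ_apply]; exact h1⟩

theorem cls_dens (h : Adm d m r) {i j : ℕ} (hi : i < d) (hj : j < d)
    (hij : (m i).natAbs ≠ (m j).natAbs) : ∃ D : ℤ → ℤ → ℝ, ∀ σ : ℤ, (σ = 1 ∨ σ = -1) → ∀ z : ℤ,
      HasDs (Cls d m r z) σ (D σ z) := by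
  classical
  have key : ∀ b : ℤ, ∃ p q : ℝ, HasDs (Cls d m r b) 1 p ∧ HasDs (Cls d m r b) (-1) q := by
    intro b
    have hS : AInv d m r 0 (Cls d m r b) := by
      have key : ∀ (k : ℕ) (x : ℤ), x ∈ Cls d m r b ↔ (Tm d m r)^[k] x ∈ Cls d m r b := by
        intro k x
        induction k with
        | zero => simp
        | succ k ih => rw [ih, Function.iterate_succ_apply']; exact cls_inv b _
      exact fun k x _ => key k x
    obtain ⟨p, q, h1, h2, -⟩ := hasDs_of_ainv h hi hj hij hS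
    exact ⟨p, q, h1, h2⟩
  choose p q hp hq using key
  refine ⟨fun σ b => if σ = 1 then p b else q b, fun σ hσ b => ?_⟩
  rcases hσ with rfl | rfl
  · simp only [if_true]; exact hp b
  · have : ¬ ((-1 : ℤ) = 1) := by norm_num
    simp only [if_neg this]; exact hq b

/-- the integers of the class of `z` whose trajectory misses `T^n z` never come low, if `n` is large -/
theorem cls_late (z : ℤ) (Y : ℝ) : ∃ n₀ : ℕ, ∀ n ≥ n₀, ∀ x ∈ Cls d m r z,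
    x ∈ Hit d m r ((Tm d m r)^[n] z) ∨ ∀ k : ℕ, Y ≤ |(((Tm d m r)^[k] x : ℤ) : ℝ)| := by
  classical
  have hfin := fin_lt (Cls d m r z) Y
  have hv : ∀ v ∈ hfin.toFinset, ∃ k : ℕ, ∃ n : ℕ, (Tm d m r)^[n] v = (Tm d m r)^[k] z := by
    intro v hv
    rw [Set.Finite.mem_toFinset] at hv
    obtain ⟨⟨n, k, h1⟩, -⟩ := hv
    exact ⟨k, n, h1⟩
  choose! f hf using hv
  refine ⟨hfin.toFinset.sup f, fun n hn x hx => ?_⟩
  by_cases hlow : ∀ k : ℕ, Y ≤ |(((Tm d m r)^[k] x : ℤ) : ℝ)|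
  · exact Or.inr hlow
  left
  push Not at hlow
  obtain ⟨k, hk⟩ := hlow
  set v := (Tm d m r)^[k] x with hv
  have hvC : v ∈ Cls d m r z := by
    have : ∀ k : ℕ, (Tm d m r)^[k] x ∈ Cls d m r z := by
      intro k
      induction k with
      | zero => simpa using hx
      | succ k ih => rw [Function.iterate_succ_apply']; exact (cls_inv z _).1 ih
    exact this k
  have hvF : v ∈ hfin.toFinset := by
    rw [Set.Finite.mem_toFinset]; exact ⟨hvC, hk⟩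
  obtain ⟨l, hl⟩ := hf v hvF
  have hfn : f v ≤ n := (le_sup (f := f) hvF).trans hn
  refine ⟨(n - f v) + (l + k), ?_⟩
  rw [Function.iterate_add_apply, Function.iterate_add_apply, ← hv, hl, ← Function.iterate_add_apply]
  congr 1
  omega

end Pool.Agent.U59.HB
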