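import Pool.Agent.U59.HB.Dens

/-! Hitting densities of generalised Collatz maps of coprime type: the theorem. -/

set_option autoImplicit false

namespace Pool.Agent.U59.HB

open Finset Filter Topology Pool.Agent.H319R3.GC Pool.Agent.H828R3.GP
open Pool.Agent.N681.AI (HasDs AInv hasDs_of_ainv Ent_ainv)

variable {d : ℕ} {m r : ℕ → ℤ}

/-- the trajectory is not eventually periodic -/
def Dvg (d : ℕ) (m r : ℕ → ℤ) (z : ℤ) : Prop :=
  ∀ n p : ℕ, 1 ≤ p → (Tm d m r)^[n + p] z ≠ (Tm d m r)^[n] z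

theorem Dvg.inj {z : ℤ} (hz : Dvg d m r z) : Function.Injective (fun n => (Tm d m r)^[n] z) := by
  intro a b hab
  rcases Nat.lt_trichotomy a b with h | h | h
  · exfalso
    obtain ⟨p, rfl⟩ := Nat.exists_eq_add_of_le h.le
    exact hz a p (by omega) hab.symm
  · exact h
  · exfalso
    obtain ⟨p, rfl⟩ := Nat.exists_eq_add_of_le h.le
    exact hz b p (by omega) hab

theorem dvg_of_infinite {z : ℤ} (hz : {x : ℤ | ∃ n : ℕ, (Tm d m r)^[n] z = x}.Infinite) : Dvg d m r z := by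
  intro n p hp hcon
  apply hz
  have hall : ∀ k : ℕ, ∃ i < n + p, (Tm d m r)^[i] z = (Tm d m r)^[k] z := by
    intro k
    induction k with
    | zero => exact ⟨0, by omega, rfl⟩
    | succ k ih =>
      obtain ⟨i, hi, he⟩ := ih
      rcases Nat.lt_or_ge (i + 1) (n + p) with h | h
      · exact ⟨i + 1, h, by rw [Function.iterate_succ_apply', Function.iterate_succ_apply', he]⟩
      · have h1 : i + 1 = n + p := by omega
        refine ⟨n, by omega, ?_⟩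
        rw [← hcon, ← h1, Function.iterate_succ_apply', he, Function.iterate_succ_apply']
  apply ((range (n + p)).image (fun i => (Tm d m r)^[i] z)).finite_toSet.subset
  rintro x ⟨k, rfl⟩
  obtain ⟨i, hi, he⟩ := hall k
  rw [mem_coe, mem_image]
  exact ⟨i, mem_range.2 hi, he⟩

theorem final (h : Adm d m r) {i j : ℕ} (hi : i < d) (hj : j < d)
    (hij : (m i).natAbs ≠ (m j).natAbs) {c : ℝ} (hc : Adc d m c) :
    ∃ (D δ : ℤ → ℤ → ℝ) (C : ℝ), 0 < C ∧ ∀ σ : ℤ, (σ = 1 ∨ σ = -1) →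
      (∀ b, HasDs (Hit d m r b) σ (D σ b)) ∧ (∀ z, HasDs (Cls d m r z) σ (δ σ z)) ∧
      (∀ (b : ℤ) (Y : ℝ), 1 ≤ Y → (∀ z ∈ Hit d m r b, Y ≤ |(z : ℝ)|) → D σ b ≤ C * Y ^ (-c)) ∧
      (∀ (b : ℤ) (ε : ℝ), 0 < ε → ε ≤ D σ b → ∃ z ∈ Hit d m r b, |(z : ℝ)| ≤ (C / ε) ^ (1 / c)) ∧
      (∀ z : ℤ, Monotone (fun n => D σ ((Tm d m r)^[n] z)) ∧
        Tendsto (fun n => D σ ((Tm d m r)^[n] z)) atTop (𝓝 (δ σ z))) ∧
      (∀ ε : ℝ, 0 < ε → {b : ℤ | ε ≤ D σ b}.Infinite →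
        ∃ z : ℤ, |(z : ℝ)| ≤ (C / ε) ^ (1 / c) ∧ Dvg d m r z ∧ ε ≤ δ σ z) ∧
      (Tendsto (D σ) cofinite (𝓝 0) ↔ ∀ z : ℤ, Dvg d m r z → δ σ z = 0) := by
  classical
  obtain ⟨C, hC, hnb⟩ := never_below h hc
  obtain ⟨C', hC', hmo⟩ := meet_orbit h hc
  obtain ⟨hc0, hc1, -⟩ := hc
  obtain ⟨D, hD⟩ := hit_dens h hi hj hij
  obtain ⟨δ, hδ⟩ := cls_dens h hi hj hij
  refine ⟨D, δ, C + C', by positivity, fun σ hσ => ?_⟩
  -- (3)
  have h3 : ∀ (b : ℤ) (Y : ℝ), 1 ≤ Y → (∀ z ∈ Hit d m r b, Y ≤ |(z : ℝ)|) →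
      D σ b ≤ (C + C') * Y ^ (-c) := by
    intro b Y hY hb
    have hY0 : 0 < Y := by linarith
    have hYc : 0 < Y ^ (-c) := Real.rpow_pos_of_pos hY0 _
    have h1 := dens_le hσ (S := Hit d m r b) (S' := ∅)
      (B := {x | Meets d m r {z : ℤ | ∃ i : ℕ, (Tm d m r)^[i] b = z} Y x}) (κ := C' * Y ^ (-c)) (by
        rintro x ⟨n, hn⟩
        right
        refine ⟨n, ⟨0, hn.symm⟩, fun j hj => hb _ ?_⟩
        obtain ⟨k, rfl⟩ := Nat.exists_eq_add_of_le hj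
        exact ⟨k, by rw [← Function.iterate_add_apply, add_comm k j]; exact hn⟩) (by
        intro N hN
        have := (hmo N Y (by exact_mod_cast hN) hY).1 b
        calc _ ≤ C' * N * Y ^ (-c) := this
          _ = _ := by ring) (hD σ hσ b) (dens_empty σ)
    have h2 : 0 ≤ C * Y ^ (-c) := by positivity
    linarith
  -- (4)
  have h4 : ∀ (b : ℤ) (ε : ℝ), 0 < ε → ε ≤ D σ b →
      ∃ z ∈ Hit d m r b, |(z : ℝ)| ≤ ((C + C') / ε) ^ (1 / c) := by
    intro b ε hε hb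
    by_contra hcon
    push Not at hcon
    set W : ℝ := ((C + C') / ε) ^ (1 / c) with hW
    have hW0 : 0 < W := by positivity
    have hex : ∃ n : ℕ, ∃ z ∈ Hit d m r b, z.natAbs = n := ⟨b.natAbs, b, ⟨0, rfl⟩, rfl⟩
    obtain ⟨z, hz, hzn⟩ := Nat.find_spec hex
    set n₀ := Nat.find hex with hn₀
    have hzW := hcon z hz
    have hzabs : |(z : ℝ)| = (n₀ : ℝ) := by
      rw [← hzn, Nat.cast_natAbs, Int.cast_abs]
    rw [hzabs] at hzW
    have hn1 : (1 : ℝ) ≤ n₀ := by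
      have : 0 < (n₀ : ℝ) := hW0.trans hzW
      have : 0 < n₀ := by exact_mod_cast this
      exact_mod_cast this
    have h5 := h3 b n₀ hn1 (by
      intro w hw
      have h6 : n₀ ≤ w.natAbs := Nat.find_min' hex ⟨w, hw, rfl⟩
      have h7 : |(w : ℝ)| = (w.natAbs : ℝ) := by rw [Nat.cast_natAbs, Int.cast_abs]
      rw [h7]
      exact_mod_cast h6)
    have h6 : (n₀ : ℝ) ^ (-c) < W ^ (-c) := Real.rpow_lt_rpow_of_neg hW0 hzW (by linarith)
    have h7 : (C + C') * W ^ (-c) = ε := by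
      rw [hW, ← Real.rpow_mul (by positivity), show 1 / c * -c = -1 by field_simp, Real.rpow_neg_one,
        inv_div]
      field_simp
    have h8 : (C + C') * (n₀ : ℝ) ^ (-c) < (C + C') * W ^ (-c) :=
      mul_lt_mul_of_pos_left h6 (by positivity)
    linarith
  -- (5)
  have hHC : ∀ z : ℤ, ∀ n : ℕ, Hit d m r ((Tm d m r)^[n] z) ⊆ Cls d m r z := by
    rintro z n x ⟨k, hk⟩
    exact ⟨k, n, hk⟩
  have h5m : ∀ z : ℤ, Monotone (fun n => D σ ((Tm d m r)^[n] z)) := by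
    intro z
    apply monotone_nat_of_le_succ
    intro n
    apply dens_mono hσ _ (hD σ hσ _) (hD σ hσ _)
    rintro x ⟨k, hk⟩
    exact ⟨k + 1, by rw [Function.iterate_succ_apply', hk, ← Function.iterate_succ_apply' (Tm d m r) n z]⟩
  have h5u : ∀ z : ℤ, ∀ n : ℕ, D σ ((Tm d m r)^[n] z) ≤ δ σ z := fun z n =>
    dens_mono hσ (hHC z n) (hD σ hσ _) (hδ σ hσ _)
  have h5 : ∀ z : ℤ, Tendsto (fun n => D σ ((Tm d m r)^[n] z)) atTop (𝓝 (δ σ z)) := by
    intro z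
    rw [Metric.tendsto_atTop]
    intro ε hε
    obtain ⟨Y, hY1, hYε⟩ : ∃ Y : ℝ, 1 ≤ Y ∧ C * Y ^ (-c) < ε := by
      have h1 : Tendsto (fun Y : ℝ => C * Y ^ (-c)) atTop (𝓝 (C * 0)) :=
        (tendsto_rpow_neg_atTop hc0).const_mul C
      rw [mul_zero] at h1
      obtain ⟨Y, h2, h3⟩ := ((h1.eventually (gt_mem_nhds hε)).and (eventually_ge_atTop 1)).exists
      exact ⟨Y, h3, h2⟩
    obtain ⟨n₀, hn₀⟩ := cls_late (d := d) (m := m) (r := r) z Y
    refine ⟨n₀, fun n hn => ?_⟩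
    have h1 := dens_le hσ (S := Cls d m r z) (S' := Hit d m r ((Tm d m r)^[n] z))
      (B := {x | ∀ k : ℕ, Y ≤ |(((Tm d m r)^[k] x : ℤ) : ℝ)|}) (κ := C * Y ^ (-c))
      (fun x hx => hn₀ n hn x hx) (by
        intro N hN
        have := hnb N Y (by exact_mod_cast hN) hY1
        calc _ ≤ C * N * Y ^ (-c) := this
          _ = _ := by ring) (hδ σ hσ z) (hD σ hσ _)
    have h2 := h5u z n
    rw [Real.dist_eq, abs_lt]
    constructor <;> linarith
  -- (6)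
  have h6 : ∀ ε : ℝ, 0 < ε → {b : ℤ | ε ≤ D σ b}.Infinite →
      ∃ z : ℤ, |(z : ℝ)| ≤ ((C + C') / ε) ^ (1 / c) ∧ Dvg d m r z ∧ ε ≤ δ σ z := by
    intro ε hε hinf
    by_contra hcon
    push Not at hcon
    set W : ℝ := ((C + C') / ε) ^ (1 / c) with hW
    apply hinf
    have hsub : {b : ℤ | ε ≤ D σ b} ⊆ ⋃ z ∈ {z : ℤ | |(z : ℝ)| ≤ W ∧ True},
        {b : ℤ | ε ≤ D σ b ∧ ∃ n : ℕ, (Tm d m r)^[n] z = b} := by
      intro b hb
      obtain ⟨z, hz, hzW⟩ := h4 b ε hε hb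
      simp only [Set.mem_iUnion, exists_prop]
      exact ⟨z, ⟨hzW, trivial⟩, hb, hz⟩
    apply Set.Finite.subset _ hsub
    apply Set.Finite.biUnion (fin_abs W _)
    rintro z ⟨hz, -⟩
    by_contra hI
    have hI : {b : ℤ | ε ≤ D σ b ∧ ∃ n : ℕ, (Tm d m r)^[n] z = b}.Infinite := hI
    have h7 : {x : ℤ | ∃ n : ℕ, (Tm d m r)^[n] z = x}.Infinite := hI.mono fun x hx => hx.2
    have h8 := hcon z hz (dvg_of_infinite h7)
    obtain ⟨b, hb, n, hn⟩ := hI.nonempty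
    have h9 := h5u z n
    rw [hn] at h9
    linarith
  refine ⟨hD σ hσ, hδ σ hσ, h3, h4, fun z => ⟨h5m z, h5 z⟩, h6, ?_, ?_⟩
  · intro hlim z hz
    have h0 : Tendsto (fun n => (Tm d m r)^[n] z) atTop cofinite := by
      have := Function.Injective.tendsto_cofinite hz.inj
      rwa [Nat.cofinite_eq_atTop] at this
    have h1 := hlim.comp h0
    exact tendsto_nhds_unique (h5 z) h1
  · intro hall
    rw [Metric.tendsto_nhds]
    intro ε hε
    rw [Filter.eventually_cofinite]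
    by_contra hinf
    have hinf : {b : ℤ | ε ≤ D σ b}.Infinite := by
      refine Set.Infinite.mono ?_ hinf
      intro b hb
      have h0 := dens_nonneg (hD σ hσ b)
      rw [Set.mem_ofPred_eq, Real.dist_eq, sub_zero, abs_of_nonneg h0, not_lt] at hb
      exact hb
    obtain ⟨z, -, hz, h1⟩ := h6 ε hε hinf
    rw [hall z hz] at h1
    linarith

end Pool.Agent.U59.HB
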