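import Pool.Agent.U59.HB.Count

/-! The one stage inequality for sets which are forward invariant except at few points. -/

set_option autoImplicit false

namespace Pool.Agent.U59.HB
open Finset Pool.Agent.H319R3.GC Pool.Agent.H828R3.GP

variable {d : ℕ} {m r : ℕ → ℤ}

/-- a point has at most `d ^ k` preimages of order `k` -/
theorem pre_card (h : Adm d m r) (b : ℤ) (k : ℕ) :
    {x : ℤ | (Tm d m r)^[k] x = b}.Finite ∧ {x : ℤ | (Tm d m r)^[k] x = b}.ncard ≤ d ^ k := by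
  have hd2 := h.two_le
  have hinj : Set.InjOn (fun x : ℤ => wd d m r k x) {x : ℤ | (Tm d m r)^[k] x = b} := by
    intro x hx y hy hxy
    have hx' : (Tm d m r)^[k] x = b := hx
    have hy' : (Tm d m r)^[k] y = b := hy
    have hxy' : wd d m r k x = wd d m r k y := hxy
    have h1 := iter_eq h k x
    have h2 := iter_eq h k y
    rw [hxy', hx'] at h1
    rw [hy'] at h2
    have hM0 : Mw m (wd d m r k y) ≠ 0 := Mw_ne_zero h (mem_LW.1 (wd_mem hd2 k y)).2
    have h3 : Mw m (wd d m r k y) * x = Mw m (wd d m r k y) * y := by linarith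
    exact mul_left_cancel₀ hM0 h3
  have hmaps : ∀ x ∈ {x : ℤ | (Tm d m r)^[k] x = b}, (fun x : ℤ => wd d m r k x) x ∈
      ((LW d k : Finset (List ℕ)) : Set (List ℕ)) := fun x _ => by
    rw [Finset.mem_coe]; exact wd_mem hd2 k x
  have hfin : {x : ℤ | (Tm d m r)^[k] x = b}.Finite := by
    apply Set.Finite.of_finite_image _ hinj
    apply (LW d k).finite_toSet.subset
    rintro _ ⟨x, hx, rfl⟩
    exact hmaps x hx
  refine ⟨hfin, ?_⟩
  have h1 := Set.ncard_le_ncard_of_injOn _ hmaps hinj (LW d k).finite_toSet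
  rw [Set.ncard_coe_finset, card_LW] at h1
  exact h1

/-- at most `d ^ k` points reach `b` in less than `k` steps -/
theorem leak_card (h : Adm d m r) (b : ℤ) (k : ℕ) :
    {x : ℤ | ∃ j < k, (Tm d m r)^[j] x = b}.Finite ∧
      {x : ℤ | ∃ j < k, (Tm d m r)^[j] x = b}.ncard ≤ d ^ k := by
  have hd2 := h.two_le
  induction k with
  | zero => simp
  | succ k ih =>
    have he : {x : ℤ | ∃ j < k + 1, (Tm d m r)^[j] x = b} =
        {x : ℤ | ∃ j < k, (Tm d m r)^[j] x = b} ∪ {x : ℤ | (Tm d m r)^[k] x = b} := by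
      ext x
      simp only [Set.mem_ofPred_eq, Set.mem_union]
      constructor
      · rintro ⟨j, hj, h1⟩
        rcases Nat.lt_succ_iff_lt_or_eq.1 hj with h2 | h2
        · exact Or.inl ⟨j, h2, h1⟩
        · subst h2; exact Or.inr h1
      · rintro (⟨j, hj, h1⟩ | h1)
        · exact ⟨j, by omega, h1⟩
        · exact ⟨k, by omega, h1⟩
    rw [he]
    have h2 := pre_card h b k
    refine ⟨ih.1.union h2.1, (Set.ncard_union_le _ _).trans ?_⟩
    calc _ ≤ d ^ k + d ^ k := add_le_add ih.2 h2.2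
      _ = 2 * d ^ k := by ring
      _ ≤ d * d ^ k := Nat.mul_le_mul_right _ hd2
      _ = d ^ (k + 1) := by rw [pow_succ']

/-- at most `#L d ^ k` points reach the finite set `L` in less than `k` steps -/
theorem leak_card_set (h : Adm d m r) (L : Finset ℤ) (k : ℕ) :
    {x : ℤ | ∃ j < k, (Tm d m r)^[j] x ∈ L}.Finite ∧
      {x : ℤ | ∃ j < k, (Tm d m r)^[j] x ∈ L}.ncard ≤ L.card * d ^ k := by
  have he : {x : ℤ | ∃ j < k, (Tm d m r)^[j] x ∈ L} =
      ⋃ b ∈ L, {x : ℤ | ∃ j < k, (Tm d m r)^[j] x = b} := by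
    ext x
    simp only [Set.mem_ofPred_eq, Set.mem_iUnion, exists_prop]
    constructor
    · rintro ⟨j, hj, h1⟩
      exact ⟨_, h1, j, hj, rfl⟩
    · rintro ⟨b, hb, j, hj, h1⟩
      exact ⟨j, hj, by rw [h1]; exact hb⟩
  rw [he]
  refine ⟨Set.Finite.biUnion L.finite_toSet fun b _ => (leak_card h b k).1, ?_⟩
  refine (Finset.set_ncard_biUnion_le L _).trans ?_
  refine (Finset.sum_le_card_nsmul L _ _ fun b _ => (leak_card h b k).2).trans ?_
  rw [smul_eq_mul]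

open scoped Classical in
/-- the one stage inequality for sets which are forward invariant except at few points -/
theorem stage'' (h : Adm d m r) (B : ℕ) (ν₀ : ℝ) (hν₀ : 0 < ν₀) : ∃ lo hi ν L₀ C : ℝ, ν ≤ ν₀ ∧ 0 < lo ∧ lo ≤ hi ∧ hi < 1 ∧ 0 < ν ∧
    1 ≤ L₀ ∧ 0 < C ∧ ∀ (L : Finset ℤ) (S : Set ℤ), (∀ x ∈ S, x ∉ L → Tm d m r x ∈ S) → ∀ a ρ : ℝ, 0 < a → L₀ ≤ Real.log a →
      (L.card : ℝ) ≤ Real.exp (Real.log a / 24) →
      0 ≤ ρ →
      (∀ a' : ℝ, 0 < a' → lo * Real.log a ≤ Real.log a' → Real.log a' ≤ hi * Real.log a →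
        PB S a' (PP d m ^ ⌊ν * Real.log a'⌋₊) ρ) →
      PB S a (PP d m ^ ⌊ν * Real.log a⌋₊) (ρ + C / (Real.log a) ^ B) := by
  have hd2 : 2 ≤ d := h.two_le
  have hdR2 : (2 : ℝ) ≤ d := by exact_mod_cast hd2
  have hdR0 : (0 : ℝ) < d := by linarith
  have hPR2 : (2 : ℝ) ≤ PP d m := by exact_mod_cast h.big
  have hPR0 : (0 : ℝ) < PP d m := by linarith
  have hP0 : 0 < PP d m := by have := h.big; omega
  have hld : 1 / 2 < Real.log d := by
    have h1 : Real.log 2 ≤ Real.log d := Real.log_le_log (by norm_num) hdR2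
    have h2 := Real.log_two_gt_d9
    linarith
  have hld0 : 0 < Real.log d := by linarith
  have hlP : 0 < Real.log (PP d m) := Real.log_pos (by linarith)
  have hc : Real.log (PP d m) < d * Real.log d := by
    have h1 : ((PP d m : ℕ) : ℝ) < (d : ℝ) ^ d := by exact_mod_cast h.contr
    have h2 := Real.log_lt_log hPR0 h1
    rwa [Real.log_pow] at h2
  obtain ⟨δ₁, hδ₁0, hδ₁1, htv⟩ := tv_groups h B
  obtain ⟨ν₁, hν₁0, hν₁ν, hν₁P⟩ : ∃ ν₁ : ℝ, 0 < ν₁ ∧ ν₁ ≤ ν₀ ∧ ν₁ * Real.log (PP d m) ≤ 1 / 8 := by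
    refine ⟨min ν₀ (1 / 8 / Real.log (PP d m)), lt_min hν₀ (by positivity), min_le_left _ _, ?_⟩
    have := mul_le_mul_of_nonneg_right (min_le_right ν₀ (1 / 8 / Real.log (PP d m))) hlP.le
    rwa [div_mul_cancel₀ _ hlP.ne'] at this
  obtain ⟨δ, hδ0, hδδ, hδν⟩ : ∃ δ : ℝ, 0 < δ ∧ δ ≤ δ₁ ∧ δ / (4 * d * Real.log d) ≤ ν₁ := by
    refine ⟨min δ₁ (4 * d * Real.log d * ν₁), lt_min hδ₁0 (by positivity), min_le_left _ _, ?_⟩
    rw [div_le_iff₀ (by positivity), mul_comm ν₁]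
    exact min_le_right _ _
  have hδ1 : δ ≤ 1 := hδδ.trans hδ₁1
  obtain ⟨hi, ν, η, L₀, hνν, hhi1, hhi2, hν0, hη0, hη1, hL, hpar⟩ :=
    s3_params' (D := d) (ld := Real.log d) (lP := Real.log (PP d m)) hdR2 hld hlP hc hδ0 hδ1
  obtain ⟨Ct, hCt, htvC⟩ := htv (ν * Real.log d / 8) (by positivity)
  obtain ⟨ct, hct, htyp⟩ := typical hd2 (η := η / d) (by positivity)
  obtain ⟨lam, Cm, hlam, hCm, hmom⟩ := moment h
  obtain ⟨K1, hK1, hexp1⟩ := s3_exp (ct / √(2 * Real.log d)) (by positivity) B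
  obtain ⟨K2, hK2, hexp2⟩ := s3_exp (lam / √(2 * Real.log d)) (by positivity) B
  obtain ⟨K3, hK3, hexp3⟩ := s3_exp 1 one_pos B
  set C : ℝ := 4 * (2 * d * K1 + Cm * K2) + 10 * K3 + 4 * (Ct * (2 * Real.log d) ^ B) with hC
  have hC0 : 0 < C := by positivity
  refine ⟨1 / 4, hi, ν, L₀, C, (hνν.trans hδν).trans hν₁ν, by norm_num, hhi1, hhi2, hν0, by linarith, hC0, ?_⟩
  intro Lk S hS a ρ ha hLa hcL hρ hyp
  set t : ℝ := Real.log a with ht
  have ht144 : 144 ≤ t := hL.trans hLa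
  have ht0 : 0 < t := by linarith
  have haexp : a = Real.exp t := (Real.exp_log ha).symm
  obtain ⟨hk1, hνk, hq0q, hqk, hi12, hi2q, hi1q, hqlP, hk2, hkle, hM⟩ :=
    hpar t hLa _ _ _ _ _ rfl rfl rfl rfl rfl
  set k : ℕ := ⌊3 / 4 * t / Real.log d⌋₊ with hk
  set q : ℕ := ⌊ν * t⌋₊ with hq
  set q₀ : ℕ := ⌊ν * (t / 4)⌋₊ with hq₀
  set i₁ : ℕ := ⌊(1 - η) * k / d⌋₊ with hi₁
  set i₂ : ℕ := ⌈(1 + η) * k / d⌉₊ with hi₂
  intro c
  have hkR1 : (1 : ℝ) ≤ k := by exact_mod_cast hk1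
  have hkR0 : (0 : ℝ) < k := by linarith
  -- exponentials
  have hdk : (d : ℝ) ^ k = Real.exp (k * Real.log d) := by
    rw [Real.exp_nat_mul, Real.exp_log hdR0]
  have hPq : ((PP d m ^ q : ℕ) : ℝ) = Real.exp (q * Real.log (PP d m)) := by
    rw [Real.exp_nat_mul, Real.exp_log hPR0, Nat.cast_pow]
  have hdk0 : (0 : ℝ) < (d : ℝ) ^ k := by positivity
  have hQ0 : 0 < PP d m ^ q := pow_pos hP0 q
  have hQR : (0 : ℝ) < ((PP d m ^ q : ℕ) : ℝ) := by exact_mod_cast hQ0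
  have hst : √t * √t = t := Real.mul_self_sqrt ht0.le
  have hst12 : 12 ≤ √t := by
    apply Real.le_sqrt_of_sq_le; linarith
  have hkQ : (d : ℝ) ^ k * ((PP d m ^ q : ℕ) : ℝ) ≤ a := by
    rw [hdk, hPq, haexp, ← Real.exp_add]
    apply Real.exp_le_exp.2
    linarith
  have hk4 : (k : ℝ) ≤ 4 * t := by
    have : (k : ℝ) * (1 / 2) ≤ k * Real.log d := mul_le_mul_of_nonneg_left hld.le hkR0.le
    linarith
  have hsk : √(k : ℝ) ≤ 2 * √t := by
    have h1 : √(k : ℝ) ≤ √(4 * t) := Real.sqrt_le_sqrt hk4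
    have h2 : √(4 * t) = 2 * √t := by
      rw [Real.sqrt_mul (by norm_num), show (4 : ℝ) = 2 ^ 2 by norm_num,
        Real.sqrt_sq (by norm_num)]
    rwa [h2] at h1
  have hE : (d : ℝ) ^ k * Real.exp (√(k : ℝ)) ≤ a * Real.exp (-(1 * √t)) := by
    rw [hdk, haexp, ← Real.exp_add, ← Real.exp_add]
    apply Real.exp_le_exp.2
    nlinarith
  have hQa : ((PP d m ^ q : ℕ) : ℝ) ≤ a * Real.exp (-(1 * √t)) := by
    rw [hPq, haexp, ← Real.exp_add]
    apply Real.exp_le_exp.2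
    nlinarith
  have hexple : Real.exp (-(1 * √t)) ≤ 1 := by
    rw [Real.exp_le_one_iff]
    linarith [Real.sqrt_nonneg t]
  have hskge : √t / √(2 * Real.log d) ≤ √(k : ℝ) := by
    rw [← Real.sqrt_div ht0.le]
    apply Real.sqrt_le_sqrt
    rw [div_le_iff₀ (by positivity)]
    linarith
  -- small terms
  have hs1 : Real.exp (-(ct * k)) ≤ K1 / t ^ B := by
    refine le_trans (Real.exp_le_exp.2 ?_) (hexp1 t ht0)
    have h1 : √(k : ℝ) ≤ k := by
      have h2 : √(k : ℝ) * √(k : ℝ) = k := Real.mul_self_sqrt hkR0.le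
      have h3 : 1 ≤ √(k : ℝ) := Real.one_le_sqrt.2 hkR1
      nlinarith
    have h4 : ct / √(2 * Real.log d) * √t = ct * (√t / √(2 * Real.log d)) := by ring
    rw [h4]
    have h5 : ct * (√t / √(2 * Real.log d)) ≤ ct * k :=
      mul_le_mul_of_nonneg_left (hskge.trans h1) hct.le
    linarith
  have hs2 : Real.exp (-(lam * √(k : ℝ))) ≤ K2 / t ^ B := by
    refine le_trans (Real.exp_le_exp.2 ?_) (hexp2 t ht0)
    have h4 : lam / √(2 * Real.log d) * √t = lam * (√t / √(2 * Real.log d)) := by ring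
    rw [h4]
    have h5 := mul_le_mul_of_nonneg_left hskge hlam.le
    linarith
  have hs3 : Real.exp (-(1 * √t)) ≤ K3 / t ^ B := hexp3 t ht0
  have hs4 : 1 / (k : ℝ) ^ B ≤ (2 * Real.log d) ^ B / t ^ B := by
    rw [div_le_div_iff₀ (by positivity) (by positivity), one_mul, ← mul_pow]
    apply pow_le_pow_left₀ ht0.le
    linarith
  -- the bad words
  set Bad : Finset (List ℕ) :=
    ((LW d k).filter fun w => ∃ i < d, η / d * k < |(w.count i : ℝ) - k / d|) ∪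
    ((LW d k).filter fun w => (d : ℝ) ^ k * Real.exp (√(k : ℝ)) < |(Ww d m r w : ℝ)|) with hBad
  have hBadcard : (Bad.card : ℝ) ≤ (d : ℝ) ^ k *
      (2 * d * Real.exp (-(ct * k)) + Cm * Real.exp (-(lam * √(k : ℝ)))) := by
    have h1 : (Bad.card : ℝ) ≤
        (((LW d k).filter fun w => ∃ i < d, η / d * k < |(w.count i : ℝ) - k / d|).card : ℝ) +
        (((LW d k).filter fun w =>
          (d : ℝ) ^ k * Real.exp (√(k : ℝ)) < |(Ww d m r w : ℝ)|).card : ℝ) := by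
      rw [← Nat.cast_add]
      exact Nat.cast_le.2 (Finset.card_union_le _ _)
    have h2 := htyp k
    have h3 := hmom k
    have h4 : (d : ℝ) ^ k * (2 * d * Real.exp (-(ct * k)) + Cm * Real.exp (-(lam * √(k : ℝ))))
      = 2 * d * ((d : ℝ) ^ k * Real.exp (-(ct * k)))
        + Cm * (d : ℝ) ^ k * Real.exp (-(lam * √(k : ℝ))) := by ring
    rw [h4]
    exact h1.trans (add_le_add h2 h3)
  have hV : ∀ w ∈ LW d k, w ∉ Bad → |(Ww d m r w : ℝ)| ≤ (d : ℝ) ^ k * Real.exp (√(k : ℝ)) := by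
    intro w hw hwB
    by_contra hcon
    rw [not_le] at hcon
    exact hwB (Finset.mem_union_right _ (Finset.mem_filter.2 ⟨hw, hcon⟩))
  have hcnt : ∀ w ∈ LW d k, w ∉ Bad →
      PP d m ^ i₁ ∣ (Mw m w).natAbs ∧ (Mw m w).natAbs ∣ PP d m ^ i₂ := by
    intro w hw hwB
    have hcw : ∀ i < d, |(w.count i : ℝ) - k / d| ≤ η / d * k := by
      intro i hid
      by_contra hcon
      rw [not_le] at hcon
      exact hwB (Finset.mem_union_left _ (Finset.mem_filter.2 ⟨hw, i, hid, hcon⟩))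
    constructor
    · apply dvd_Mw hw
      intro i hid
      have h1 := (abs_le.1 (hcw i hid)).1
      rw [hi₁]
      apply Nat.floor_le_of_le
      have e : (1 - η) * (k : ℝ) / d = k / d - η / d * k := by ring
      rw [e]
      linarith
    · apply Mw_dvd hw
      intro i hid
      have h1 := (abs_le.1 (hcw i hid)).2
      have h2 : (w.count i : ℝ) ≤ i₂ := by
        refine le_trans ?_ (Nat.le_ceil _)
        have e : (1 + η) * (k : ℝ) / d = k / d + η / d * k := by ring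
        rw [e]
        linarith
      exact_mod_cast h2
  have hPB : ∀ M ∈ (Ms d m k).filter (fun M => PP d m ^ i₁ ∣ M.natAbs ∧ M.natAbs ∣ PP d m ^ i₂),
      PB S (|(M : ℝ)| * a / (d : ℝ) ^ k) (PP d m ^ q₀) ρ := by
    intro M hMF
    rw [Finset.mem_filter] at hMF
    obtain ⟨hMs, _, hMi2⟩ := hMF
    have hMpos : 0 < M.natAbs := Nat.pos_of_dvd_of_pos hMi2 (pow_pos hP0 _)
    have hMabs : ((M.natAbs : ℕ) : ℝ) = |(M : ℝ)| := by rw [Nat.cast_natAbs, Int.cast_abs]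
    have hM1 : (1 : ℝ) ≤ |(M : ℝ)| := by rw [← hMabs]; exact_mod_cast hMpos
    have hM2 : |(M : ℝ)| ≤ (PP d m : ℝ) ^ i₂ := by
      rw [← hMabs]; exact_mod_cast Nat.le_of_dvd (pow_pos hP0 _) hMi2
    have hM0 : (0 : ℝ) < |(M : ℝ)| := by linarith
    set a' : ℝ := |(M : ℝ)| * a / (d : ℝ) ^ k with ha'
    have ha'0 : 0 < a' := by positivity
    have hlog : Real.log a' = Real.log |(M : ℝ)| + t - k * Real.log d := by
      rw [ha', Real.log_div (by positivity) (by positivity), Real.log_mul hM0.ne' ha.ne',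
        Real.log_pow]
    have hl0 : 0 ≤ Real.log |(M : ℝ)| := Real.log_nonneg hM1
    have hl2 : Real.log |(M : ℝ)| ≤ i₂ * Real.log (PP d m) := by
      have := Real.log_le_log hM0 hM2
      rwa [Real.log_pow] at this
    have hge : 1 / 4 * t ≤ Real.log a' := by rw [hlog]; linarith
    have hle : Real.log a' ≤ hi * t := by rw [hlog]; exact hM _ hl2
    refine PB.coarse ha'0 (pow_pos hP0 _) (pow_dvd_pow _ ?_) (hyp a' ha'0 hge hle)
    rw [hq₀]
    apply Nat.floor_le_floor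
    have := mul_le_mul_of_nonneg_left hge hν0.le
    linarith
  set S0 : Set ℤ := {x : ℤ | x ∈ S ∧ ∀ j < k, (Tm d m r)^[j] x ∉ Lk} with hS0
  have hSk : ∀ x ∈ S0, (Tm d m r)^[k] x ∈ S := by
    rintro x ⟨hx1, hx2⟩
    have : ∀ j ≤ k, (Tm d m r)^[j] x ∈ S := by
      intro j
      induction j with
      | zero => intro _; simpa using hx1
      | succ j ih =>
        intro hj
        rw [Function.iterate_succ_apply']
        exact hS _ (ih (by omega)) (hx2 j (by omega))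
    exact this k le_rfl
  have hqν : (q : ℝ) * Real.log (PP d m) ≤ t / 8 := by
    have h1 : (q : ℝ) ≤ ν * t := Nat.floor_le (by positivity)
    have h2 : ν ≤ ν₁ := hνν.trans hδν
    calc (q : ℝ) * Real.log (PP d m) ≤ (ν * t) * Real.log (PP d m) :=
          mul_le_mul_of_nonneg_right h1 hlP.le
      _ = (ν * Real.log (PP d m)) * t := by ring
      _ ≤ (ν₁ * Real.log (PP d m)) * t := by
          apply mul_le_mul_of_nonneg_right _ ht0.le
          exact mul_le_mul_of_nonneg_right h2 hlP.le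
      _ ≤ (1 / 8) * t := mul_le_mul_of_nonneg_right hν₁P ht0.le
      _ = t / 8 := by ring
  have hleakQ : (Lk.card : ℝ) * (d : ℝ) ^ k * ((PP d m ^ q : ℕ) : ℝ) ≤ a * Real.exp (-(1 * √t)) := by
    calc (Lk.card : ℝ) * (d : ℝ) ^ k * ((PP d m ^ q : ℕ) : ℝ)
        ≤ Real.exp (t / 24) * (d : ℝ) ^ k * ((PP d m ^ q : ℕ) : ℝ) := by
          apply mul_le_mul_of_nonneg_right _ hQR.le
          exact mul_le_mul_of_nonneg_right hcL hdk0.le
      _ ≤ _ := by
          rw [hdk, hPq, haexp, ← Real.exp_add, ← Real.exp_add, ← Real.exp_add]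
          apply Real.exp_le_exp.2
          nlinarith
  have hwin := I1_window_finite S (2 * a)
  have hleak : wc S a (PP d m ^ q) c ≤ wc S0 a (PP d m ^ q) c + (Lk.card : ℝ) * (d : ℝ) ^ k := by
    unfold wc
    have hlk := leak_card_set h Lk k
    have hsub : {x : ℤ | x ∈ S ∧ a ≤ |(x : ℝ)| ∧ |(x : ℝ)| < 2 * a ∧ ((PP d m ^ q : ℕ) : ℤ) ∣ x - c} ⊆
        {x : ℤ | x ∈ S0 ∧ a ≤ |(x : ℝ)| ∧ |(x : ℝ)| < 2 * a ∧ ((PP d m ^ q : ℕ) : ℤ) ∣ x - c} ∪
        {x : ℤ | ∃ j < k, (Tm d m r)^[j] x ∈ Lk} := by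
      rintro x ⟨h1, h2, h3, h4⟩
      by_cases h5 : ∃ j < k, (Tm d m r)^[j] x ∈ Lk
      · exact Or.inr h5
      · push Not at h5
        exact Or.inl ⟨⟨h1, h5⟩, h2, h3, h4⟩
    have hfin : {x : ℤ | x ∈ S0 ∧ a ≤ |(x : ℝ)| ∧ |(x : ℝ)| < 2 * a ∧
        ((PP d m ^ q : ℕ) : ℤ) ∣ x - c}.Finite := by
      apply hwin.subset
      rintro x ⟨h1, -, h3, -⟩
      exact ⟨h1.1, h3⟩
    have h1 := (Set.ncard_le_ncard hsub (hfin.union hlk.1)).trans
      ((Set.ncard_union_le _ _).trans (Nat.add_le_add_left hlk.2 _))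
    exact_mod_cast h1
  have hcount := s3_count' h hSk ha (k := k) (Q := PP d m ^ q) (Q₀ := PP d m ^ q₀) (i₁ := i₁)
    (i₂ := i₂) hQ0 (pow_pos hP0 _) (pow_dvd_pow _ hq0q) ?_ hkQ c hρ Bad
    (V := Real.exp (√(k : ℝ))) (Real.exp_pos _).le ?_ hV hcnt hPB
  · have hi2q' : ((i₂ + q : ℕ) : ℝ) ≤ (1 + δ₁) * ((i₁ + q : ℕ) : ℝ) := by
      refine hi2q.trans (mul_le_mul_of_nonneg_right (by linarith) (Nat.cast_nonneg _))
    have hi1q' : (1 - δ₁) * d * ((i₁ + q : ℕ) : ℝ) ≤ k := by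
      refine le_trans ?_ hi1q
      apply mul_le_mul_of_nonneg_right _ (Nat.cast_nonneg _)
      exact mul_le_mul_of_nonneg_right (by linarith) (by linarith)
    have htvk := htvC k i₁ i₂ q₀ q hk1 hνk hq0q hqk hi12 hi2q' hi1q'
    set T : ℝ := ∑ M ∈ (Ms d m k).filter
      (fun M => PP d m ^ i₁ ∣ M.natAbs ∧ M.natAbs ∣ PP d m ^ i₂),
        tv (gr d m k M) (Ww d m r) (PP d m ^ q₀) (M.natAbs * PP d m ^ q) with hT
    set Q : ℝ := ((PP d m ^ q : ℕ) : ℝ) with hQdef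
    set u : ℝ := a / Q with hu
    have hu0 : 0 < u := by positivity
    have e1 : 4 * a / ((d : ℝ) ^ k * Q) = 4 * u / (d : ℝ) ^ k := by
      rw [hu]; field_simp
    have t1 : (Bad.card : ℝ) * (4 * a / ((d : ℝ) ^ k * Q)) ≤ (2 * d * (K1 / t ^ B) + Cm * (K2 / t ^ B)) * (4 * u) := by
      rw [e1]
      have h1 : (Bad.card : ℝ) ≤ (d : ℝ) ^ k * (2 * d * (K1 / t ^ B) + Cm * (K2 / t ^ B)) := by
        refine hBadcard.trans (mul_le_mul_of_nonneg_left ?_ hdk0.le)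
        exact add_le_add (mul_le_mul_of_nonneg_left hs1 (by positivity))
          (mul_le_mul_of_nonneg_left hs2 hCm.le)
      have h2 := mul_le_mul_of_nonneg_right h1 (show (0 : ℝ) ≤ 4 * u / (d : ℝ) ^ k by positivity)
      refine h2.trans (le_of_eq ?_)
      field_simp
    have t2 : 4 * ((d : ℝ) ^ k * Real.exp (√(k : ℝ)) / Q + 1) ≤ 8 * (K3 / t ^ B) * u := by
      have h1 : (d : ℝ) ^ k * Real.exp (√(k : ℝ)) / Q ≤ u * Real.exp (-(1 * √t)) := by
        rw [hu, div_mul_eq_mul_div]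
        exact div_le_div_of_nonneg_right hE hQR.le
      have h2 : 1 ≤ u * Real.exp (-(1 * √t)) := by
        rw [hu, div_mul_eq_mul_div, le_div_iff₀ hQR, one_mul]
        exact hQa
      have h3 : u * Real.exp (-(1 * √t)) ≤ u * (K3 / t ^ B) :=
        mul_le_mul_of_nonneg_left hs3 hu0.le
      linarith
    have t3 : ρ * (2 * a) / Q = 2 * ρ * u := by rw [hu]; ring
    have t4 : 4 * a / ((d : ℝ) ^ k * Q) * T ≤ 4 * (Ct * ((2 * Real.log d) ^ B / t ^ B)) * u := by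
      rw [e1]
      have h1 : T ≤ Ct * (d : ℝ) ^ k * (1 / (k : ℝ) ^ B) := by
        refine htvk.trans (le_of_eq ?_); ring
      have h2 : T ≤ Ct * (d : ℝ) ^ k * ((2 * Real.log d) ^ B / t ^ B) :=
        h1.trans (mul_le_mul_of_nonneg_left hs4 (by positivity))
      have h3 := mul_le_mul_of_nonneg_left h2 (show (0 : ℝ) ≤ 4 * u / (d : ℝ) ^ k by positivity)
      refine h3.trans (le_of_eq ?_)
      field_simp
    have t5 : (Lk.card : ℝ) * (d : ℝ) ^ k ≤ (K3 / t ^ B) * u := by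
      have h1 : (Lk.card : ℝ) * (d : ℝ) ^ k ≤ u * Real.exp (-(1 * √t)) := by
        rw [hu, div_mul_eq_mul_div, le_div_iff₀ hQR]
        exact hleakQ
      have h3 : u * Real.exp (-(1 * √t)) ≤ u * (K3 / t ^ B) :=
        mul_le_mul_of_nonneg_left hs3 hu0.le
      linarith
    have goal : (ρ + C / t ^ B) * (2 * a) / Q = 2 * ρ * u + 2 * (C / t ^ B) * u := by
      rw [hu]; ring
    rw [goal]
    have hCexp : C / t ^ B = 4 * (2 * d * (K1 / t ^ B) + Cm * (K2 / t ^ B)) + 10 * (K3 / t ^ B)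
        + 4 * (Ct * ((2 * Real.log d) ^ B / t ^ B)) := by
      rw [hC]; ring
    have hCpos : 0 ≤ C / t ^ B * u := by positivity
    have hK3u : 0 ≤ K3 / t ^ B * u := by positivity
    have hfin : (2 * d * (K1 / t ^ B) + Cm * (K2 / t ^ B)) * (4 * u) + 10 * (K3 / t ^ B) * u
        + 4 * (Ct * ((2 * Real.log d) ^ B / t ^ B)) * u = C / t ^ B * u := by
      rw [hCexp]; ring
    linarith
  · -- coprimality
    apply Nat.Coprime.pow_left
    unfold PP
    apply Nat.Coprime.prod_left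
    intro i hir
    have := h.cop i (Finset.mem_range.1 hir)
    rw [Int.isCoprime_iff_gcd_eq_one] at this
    have h2 : Int.gcd (m i) (d : ℤ) = Nat.gcd (m i).natAbs d := by
      rw [Int.gcd_def]; simp
    rw [h2] at this
    exact this
  · calc (d : ℝ) ^ k * Real.exp (√(k : ℝ)) ≤ a * Real.exp (-(1 * √t)) := hE
      _ ≤ a * 1 := mul_le_mul_of_nonneg_left hexple ha.le
      _ = a := mul_one a



end Pool.Agent.U59.HB
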