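import Pool.Agent.H828R3.GP.Main
import Pool.Agent.U59.HB.Stage

/-! The first values below `Y` are spread: generalised Collatz maps of coprime type. -/

set_option autoImplicit false

namespace Pool.Agent.U59.HB

open Finset Pool.Agent.H319R3.GC Pool.Agent.H828R3.GP

variable {d : ℕ} {m r : ℕ → ℤ}

/-- the first value of modulus `< Y` comes after exactly `n` steps -/
def FY (d : ℕ) (m r : ℕ → ℤ) (Y : ℝ) (n : ℕ) (x : ℤ) : Prop :=
  (∀ j < n, Y ≤ |(((Tm d m r)^[j] x : ℤ) : ℝ)|) ∧ |(((Tm d m r)^[n] x : ℤ) : ℝ)| < Y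

theorem fiberY (h : Adm d m r) {R : ℝ} (hR : ∀ i < d, |(r i : ℝ)| ≤ R) (hR0 : 0 ≤ R) {X₀ Y : ℝ} {n : ℕ}
    (hX₀ : 0 ≤ X₀) (hY : 0 < Y) (hn : 4 * n * R ≤ Y) (S : Finset ℤ) {q : ℕ} (hq : 0 < q)
    (c M y : ℤ)
    (hS : ∀ x ∈ S, |(x : ℝ)| < X₀ ∧ (q : ℤ) ∣ x - c ∧ FY d m r Y n x ∧
      (Tm d m r)^[n] x = y ∧ Mu d m r n x = M) (hy : Y ≤ 2 * d * |(y : ℝ)|) :
    (S.card : ℝ) ≤ 16 * n * R * d * X₀ / (Y * q) + 1 := by
  have hd0 : (0 : ℝ) < d := by exact_mod_cast (by have := h.two_le; omega : 0 < d)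
  have hnn : (0 : ℝ) ≤ n := Nat.cast_nonneg n
  have hD : 0 < (d : ℝ) ^ n := by positivity
  have hqR : (0 : ℝ) < q := by exact_mod_cast hq
  have key : ∀ x ∈ S, |(M : ℝ) * x - (d : ℝ) ^ n * y| ≤ 2 * n * R * (d : ℝ) ^ n ∧
      (d : ℝ) ^ n ≤ 4 * d * |(M : ℝ)| * X₀ / Y := by
    intro x hx
    obtain ⟨h1, h2, h3, h4, h5⟩ := hS x hx
    have h6 := approx h hR hR0 hY n h3.1 (by nlinarith)
    have h7 := h3.2
    rw [h4] at h6 h7
    rw [h5] at h6
    constructor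
    · refine h6.trans ?_
      calc n * (2 * R / Y) * ((d : ℝ) ^ n * |(y : ℝ)|)
          ≤ n * (2 * R / Y) * ((d : ℝ) ^ n * Y) := by
            apply mul_le_mul_of_nonneg_left _ (by positivity)
            exact mul_le_mul_of_nonneg_left h7.le hD.le
        _ = _ := by field_simp
    · have h8 : n * (2 * R / Y) ≤ 1 / 2 := by
        rw [mul_div_assoc', div_le_iff₀ hY]; linarith
      have h9 : |(M : ℝ) * x - (d : ℝ) ^ n * y| ≤ 1 / 2 * ((d : ℝ) ^ n * |(y : ℝ)|) :=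
        h6.trans (mul_le_mul_of_nonneg_right h8 (by positivity))
      have h10 : (d : ℝ) ^ n * |(y : ℝ)| ≤ 2 * (|(M : ℝ)| * |(x : ℝ)|) := by
        have e1 : (d : ℝ) ^ n * |(y : ℝ)| = |(d : ℝ) ^ n * y| := by rw [abs_mul, abs_of_pos hD]
        have e2 := abs_sub_abs_le_abs_sub ((d : ℝ) ^ n * y) ((M : ℝ) * x)
        rw [abs_sub_comm, ← e1, abs_mul (M : ℝ)] at e2
        linarith
      rw [le_div_iff₀ hY]
      calc (d : ℝ) ^ n * Y ≤ (d : ℝ) ^ n * (2 * d * |(y : ℝ)|) := mul_le_mul_of_nonneg_left hy hD.le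
        _ = 2 * d * ((d : ℝ) ^ n * |(y : ℝ)|) := by ring
        _ ≤ 2 * d * (2 * (|(M : ℝ)| * |(x : ℝ)|)) := mul_le_mul_of_nonneg_left h10 (by positivity)
        _ ≤ 2 * d * (2 * (|(M : ℝ)| * X₀)) := by
            apply mul_le_mul_of_nonneg_left _ (by positivity)
            apply mul_le_mul_of_nonneg_left _ (by norm_num)
            exact mul_le_mul_of_nonneg_left h1.le (abs_nonneg _)
        _ = _ := by ring
  have h0 := card_ap S q hq c (16 * n * R * d * X₀ / Y) (by positivity) (fun x hx => (hS x hx).2.1) (by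
    intro x hx z hz
    obtain ⟨a1, a2⟩ := key x hx
    obtain ⟨b1, b2⟩ := key z hz
    have hM0 : 0 < |(M : ℝ)| := by
      by_contra hcon
      push Not at hcon
      have : |(M : ℝ)| = 0 := le_antisymm hcon (abs_nonneg _)
      rw [this, mul_zero, zero_mul, zero_div] at a2
      linarith
    have h3 : |(M : ℝ)| * |(x : ℝ) - z| ≤ 4 * n * R * (d : ℝ) ^ n := by
      rw [← abs_mul]
      have : (M : ℝ) * ((x : ℝ) - z) = ((M : ℝ) * x - (d : ℝ) ^ n * y) - ((M : ℝ) * z - (d : ℝ) ^ n * y) := by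
        ring
      rw [this]
      refine (abs_sub _ _).trans ?_
      linarith
    have h4 : |(M : ℝ)| * |(x : ℝ) - z| ≤ |(M : ℝ)| * (16 * n * R * d * X₀ / Y) := by
      refine h3.trans ?_
      calc 4 * n * R * (d : ℝ) ^ n ≤ 4 * n * R * (4 * d * |(M : ℝ)| * X₀ / Y) :=
            mul_le_mul_of_nonneg_left a2 (by positivity)
        _ = _ := by ring
    have h5 := le_of_mul_le_mul_left h4 hM0
    push_cast
    exact (le_abs_self _).trans h5)
  rwa [div_div] at h0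

open Classical in
/-- the points of `(-X₀, X₀)` in the class of `c` mod `q` whose first value below `Y` is in `B` -/
noncomputable def PY (d : ℕ) (m r : ℕ → ℤ) (X₀ Y : ℝ) (N q : ℕ) (c : ℤ) (B : Finset ℤ) : Finset ℤ :=
  (Icc (-⌈X₀⌉) ⌈X₀⌉).filter (fun x => |(x : ℝ)| < X₀ ∧ (q : ℤ) ∣ x - c ∧
    ∃ n ≤ N, FY d m r Y n x ∧ (Tm d m r)^[n] x ∈ B)

theorem mem_Icc_ceil {X₀ : ℝ} {x : ℤ} (hx : |(x : ℝ)| < X₀) : x ∈ Icc (-⌈X₀⌉) ⌈X₀⌉ := by
  have h1 := abs_lt.1 hx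
  have h2 := Int.le_ceil X₀
  rw [mem_Icc]
  constructor
  · have : (-(⌈X₀⌉ : ℤ) : ℝ) ≤ x := by linarith
    exact_mod_cast this
  · have : (x : ℝ) ≤ (⌈X₀⌉ : ℤ) := by linarith
    exact_mod_cast this

theorem card_PY (h : Adm d m r) {R : ℝ} (hR : ∀ i < d, |(r i : ℝ)| ≤ R) (hR0 : 0 ≤ R) {X₀ Y : ℝ}
    (hX₀ : 0 ≤ X₀) (hY : 0 < Y) {N q : ℕ}
    (hN : 4 * N * R ≤ Y) (hq : 0 < q) (c : ℤ) (B : Finset ℤ)
    (hB : ∀ y ∈ B, Y ≤ 2 * d * |(y : ℝ)|) :
    ((PY d m r X₀ Y N q c B).card : ℝ) ≤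
      B.card * ((N + 1) * ((N + 1) ^ d * (16 * N * R * d * X₀ / (Y * q) + 1))) := by
  classical
  have hqR : (0 : ℝ) < q := by exact_mod_cast hq
  have hd0 : (0 : ℝ) < d := by exact_mod_cast (by have := h.two_le; omega : 0 < d)
  set E : ℝ := 16 * N * R * d * X₀ / (Y * q) + 1 with hE
  have hE0 : 0 ≤ E := by positivity
  set Fi : ℤ → ℕ → ℤ → Finset ℤ := fun y n M => (PY d m r X₀ Y N q c B).filter
    (fun x => FY d m r Y n x ∧ (Tm d m r)^[n] x = y ∧ Mu d m r n x = M) with hFi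
  have hsub : PY d m r X₀ Y N q c B ⊆ B.biUnion (fun y => (range (N + 1)).biUnion (fun n =>
      (Ms d m n).biUnion (fun M => Fi y n M))) := by
    intro x hx
    have hx' := hx
    unfold PY at hx'
    rw [mem_filter] at hx'
    obtain ⟨_, _, _, n, hn, hfp, hB'⟩ := hx'
    rw [mem_biUnion]
    refine ⟨_, hB', ?_⟩
    rw [mem_biUnion]
    refine ⟨n, mem_range.2 (by omega), ?_⟩
    rw [mem_biUnion]
    refine ⟨Mu d m r n x, Mu_mem h.two_le n x, ?_⟩
    rw [hFi]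
    exact mem_filter.2 ⟨hx, hfp, rfl, rfl⟩
  have hfib : ∀ y ∈ B, ∀ n ∈ range (N + 1), ∀ M ∈ Ms d m n, ((Fi y n M).card : ℝ) ≤ E := by
    intro y hy n hn M _
    rw [mem_range] at hn
    have hnN : (n : ℝ) ≤ N := by exact_mod_cast (by omega : n ≤ N)
    have hnn : (0 : ℝ) ≤ n := Nat.cast_nonneg n
    have h1 := fiberY h hR hR0 (X₀ := X₀) (Y := Y) (n := n) hX₀ hY (by
      refine le_trans ?_ hN
      apply mul_le_mul_of_nonneg_right _ hR0
      linarith) (Fi y n M) hq c M y (by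
      intro x hx
      rw [hFi] at hx
      simp only [mem_filter, PY] at hx
      obtain ⟨⟨_, h1, h2, _⟩, h3, h4, h5⟩ := hx
      exact ⟨h1, h2, h3, h4, h5⟩) (hB y hy)
    refine h1.trans ?_
    rw [hE]
    have : 16 * (n : ℝ) * R * d * X₀ / (Y * q) ≤ 16 * N * R * d * X₀ / (Y * q) := by
      apply div_le_div_of_nonneg_right _ (by positivity)
      apply mul_le_mul_of_nonneg_right _ hX₀
      apply mul_le_mul_of_nonneg_right _ hd0.le
      apply mul_le_mul_of_nonneg_right _ hR0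
      linarith
    linarith
  have h1 : ((PY d m r X₀ Y N q c B).card : ℝ) ≤
      ∑ y ∈ B, ∑ n ∈ range (N + 1), ∑ M ∈ Ms d m n, ((Fi y n M).card : ℝ) := by
    have : (PY d m r X₀ Y N q c B).card ≤ ∑ y ∈ B, ∑ n ∈ range (N + 1), ∑ M ∈ Ms d m n, (Fi y n M).card := by
      refine (card_le_card hsub).trans ?_
      refine card_biUnion_le.trans (sum_le_sum fun y _ => ?_)
      refine card_biUnion_le.trans (sum_le_sum fun n _ => ?_)
      exact card_biUnion_le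
    exact_mod_cast this
  refine h1.trans ?_
  have h2 : ∀ y ∈ B, ∑ n ∈ range (N + 1), ∑ M ∈ Ms d m n, ((Fi y n M).card : ℝ) ≤
      (N + 1) * ((N + 1) ^ d * E) := by
    intro y hy
    have h3 : ∀ n ∈ range (N + 1), ∑ M ∈ Ms d m n, ((Fi y n M).card : ℝ) ≤ ((N : ℝ) + 1) ^ d * E := by
      intro n hn
      refine (sum_le_card_nsmul _ _ E (hfib y hy n hn)).trans ?_
      rw [nsmul_eq_mul]
      apply mul_le_mul_of_nonneg_right _ hE0
      have h4 : ((Ms d m n).card : ℝ) ≤ ((n : ℝ) + 1) ^ d := by exact_mod_cast card_Ms (d := d) (m := m) n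
      refine h4.trans ?_
      rw [mem_range] at hn
      have hnN : (n : ℝ) ≤ N := by exact_mod_cast (by omega : n ≤ N)
      exact pow_le_pow_left₀ (by positivity) (by linarith) d
    refine (sum_le_card_nsmul _ _ _ h3).trans ?_
    rw [card_range, nsmul_eq_mul]
    push_cast
    exact le_refl _
  refine (sum_le_card_nsmul _ _ _ h2).trans ?_
  rw [nsmul_eq_mul]

/-- the total of the bad first passages -/
theorem card_bad (h : Adm d m r) {R : ℝ} (hR : ∀ i < d, |(r i : ℝ)| ≤ R) (hR0 : 0 ≤ R) {s K : ℝ}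
    (hs : 0 ≤ s) (hK1 : 1 ≤ K) (hK : ∑ j ∈ range d, (|(m j : ℝ)| / d) ^ s ≤ K) (hKd : K < d)
    {k l q : ℕ} (hq : 0 < q) (c : ℤ) (hk1 : 1 ≤ k)
    (hl : 4 * (k * k) * R ≤ (d : ℝ) ^ l) :
    (((Ioc l k).biUnion (fun i => Pa d m r k i (k * k) q c (St d m r i))).card : ℝ) ≤
      k * (3 * (2 * d) ^ s * ((k * k + 1) ^ (d + 1) *
      (8 * (k * k) * R * d * ((d : ℝ) ^ k * (K / d) ^ l) / q + (d : ℝ) ^ k * (K / d) ^ k))) := by
  classical
  have hqR : (0 : ℝ) < q := by exact_mod_cast hq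
  have hd1 : (1 : ℝ) ≤ d := by exact_mod_cast (by have := h.two_le; omega : 1 ≤ d)
  have hd0 : (0 : ℝ) < d := by linarith
  have hkR : (1 : ℝ) ≤ k := by exact_mod_cast hk1
  have hK0 : 0 < K := by linarith
  have hκ1 : K / d ≤ 1 := by rw [div_le_one hd0]; exact hKd.le
  have hκ0 : 0 ≤ K / d := by positivity
  have hsum0 : 0 ≤ ∑ j ∈ range d, (|(m j : ℝ)| / d) ^ s := sum_nonneg fun j _ => by positivity
  have h1 : (((Ioc l k).biUnion (fun i => Pa d m r k i (k * k) q c (St d m r i))).card : ℝ) ≤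
      ∑ i ∈ Ioc l k, ((Pa d m r k i (k * k) q c (St d m r i)).card : ℝ) := by
    exact_mod_cast card_biUnion_le
  set W : ℝ := 3 * (2 * d) ^ s * ((k * k + 1) ^ (d + 1) *
      (8 * (k * k) * R * d * ((d : ℝ) ^ k * (K / d) ^ l) / q + (d : ℝ) ^ k * (K / d) ^ k)) with hW
  have hW0 : 0 ≤ W := by positivity
  have h2 : ∀ i ∈ Ioc l k, ((Pa d m r k i (k * k) q c (St d m r i)).card : ℝ) ≤ W := by
    intro i hi
    rw [mem_Ioc] at hi
    have a1 := card_Pa h hR hR0 (k := k) (i := i) (N := k * k) (q := q) (by omega) hi.2 (by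
      push_cast
      exact hl.trans (pow_le_pow_right₀ hd1 hi.1.le)) hq c (St d m r i) (by
      intro y hy
      unfold St at hy
      rw [mem_filter] at hy
      exact hy.2.1)
    have a2 := card_St h hs i
    have a3 : (∑ j ∈ range d, (|(m j : ℝ)| / d) ^ s) ^ i ≤ K ^ i := pow_le_pow_left₀ hsum0 hK i
    refine a1.trans ?_
    push_cast
    have a4 : K ^ i ≤ K ^ k := pow_le_pow_right₀ hK1 hi.2
    have a5 : K ^ i * (d : ℝ) ^ (k - i + 1) ≤ d * ((d : ℝ) ^ k * (K / d) ^ l) := by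
      have e1 : K ^ i = (d : ℝ) ^ i * (K / d) ^ i := by rw [← mul_pow]; congr 1; field_simp
      have e2 : (K / d) ^ i ≤ (K / d) ^ l := pow_le_pow_of_le_one hκ0 hκ1 hi.1.le
      have e3 : (d : ℝ) ^ i * (d : ℝ) ^ (k - i + 1) = d * (d : ℝ) ^ k := by
        rw [← pow_add, ← pow_succ']; congr 1; omega
      calc K ^ i * (d : ℝ) ^ (k - i + 1) = ((d : ℝ) ^ i * (d : ℝ) ^ (k - i + 1)) * (K / d) ^ i := by
            rw [e1]; ring
        _ ≤ ((d : ℝ) ^ i * (d : ℝ) ^ (k - i + 1)) * (K / d) ^ l :=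
            mul_le_mul_of_nonneg_left e2 (by positivity)
        _ = _ := by rw [e3]; ring
    have a6 : K ^ k = (d : ℝ) ^ k * (K / d) ^ k := by rw [← mul_pow]; congr 1; field_simp
    have a7 : (St d m r i).card * (8 * ((k : ℝ) * k) * R * (d : ℝ) ^ (k - i + 1) / q + 1) ≤
        3 * (2 * d) ^ s * (8 * (k * k) * R * d * ((d : ℝ) ^ k * (K / d) ^ l) / q +
          (d : ℝ) ^ k * (K / d) ^ k) := by
      have b1 : ((St d m r i).card : ℝ) ≤ 3 * (2 * d) ^ s * K ^ i :=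
        a2.trans (mul_le_mul_of_nonneg_left a3 (by positivity))
      refine (mul_le_mul_of_nonneg_right b1 (by positivity)).trans ?_
      rw [mul_assoc (3 * (2 * (d : ℝ)) ^ s)]
      apply mul_le_mul_of_nonneg_left _ (by positivity)
      rw [mul_add, mul_one]
      apply add_le_add
      · calc K ^ i * (8 * ((k : ℝ) * k) * R * (d : ℝ) ^ (k - i + 1) / q)
            = 8 * ((k : ℝ) * k) * R * (K ^ i * (d : ℝ) ^ (k - i + 1)) / q := by ring
          _ ≤ 8 * ((k : ℝ) * k) * R * (d * ((d : ℝ) ^ k * (K / d) ^ l)) / q := by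
              apply div_le_div_of_nonneg_right _ hqR.le
              exact mul_le_mul_of_nonneg_left a5 (by positivity)
          _ = _ := by ring
      · rw [← a6]; exact a4
    calc ((St d m r i).card : ℝ) * ((k * k + 1) * ((k * k + 1) ^ d *
          (8 * (k * k) * R * (d : ℝ) ^ (k - i + 1) / q + 1)))
        = (k * k + 1) ^ (d + 1) * ((St d m r i).card *
          (8 * ((k : ℝ) * k) * R * (d : ℝ) ^ (k - i + 1) / q + 1)) := by ring
      _ ≤ (k * k + 1) ^ (d + 1) * (3 * (2 * d) ^ s *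
          (8 * (k * k) * R * d * ((d : ℝ) ^ k * (K / d) ^ l) / q + (d : ℝ) ^ k * (K / d) ^ k)) :=
          mul_le_mul_of_nonneg_left a7 (by positivity)
      _ = W := by rw [hW]; ring
  calc (((Ioc l k).biUnion (fun i => Pa d m r k i (k * k) q c (St d m r i))).card : ℝ)
      ≤ ∑ i ∈ Ioc l k, ((Pa d m r k i (k * k) q c (St d m r i)).card : ℝ) := h1
    _ ≤ (Ioc l k).card • W := sum_le_card_nsmul _ _ _ h2
    _ = ((k - l : ℕ) : ℝ) * W := by rw [Nat.card_Ioc, nsmul_eq_mul]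
    _ ≤ k * W := by
        apply mul_le_mul_of_nonneg_right _ hW0
        exact_mod_cast Nat.sub_le _ _

/-- the integers of modulus `≥ Y` whose first value below `Y`, if any, is in `E` -/
def SE (d : ℕ) (m r : ℕ → ℤ) (Y : ℝ) (E : Finset ℤ) : Set ℤ :=
  {x : ℤ | Y ≤ |(x : ℝ)| ∧ ∀ n : ℕ, FY d m r Y n x → (Tm d m r)^[n] x ∈ E}

/-- the first value below `Y` is not much smaller than `Y` -/
theorem entrance_large (h : Adm d m r) {R : ℝ} (hR : ∀ i < d, |(r i : ℝ)| ≤ R) {Y : ℝ}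
    (hYR : 2 * R ≤ Y) {x : ℤ} (hx : Y ≤ |(x : ℝ)|) {n : ℕ} (hn : FY d m r Y n x) :
    Y ≤ 2 * d * |(((Tm d m r)^[n] x : ℤ) : ℝ)| := by
  have hd0 : (0 : ℝ) < d := by exact_mod_cast (by have := h.two_le; omega : 0 < d)
  rcases Nat.eq_zero_or_pos n with h0 | h0
  · subst h0
    exact absurd hn.2 (not_lt.2 hx)
  · obtain ⟨p, rfl⟩ := Nat.exists_eq_succ_of_ne_zero (by omega : n ≠ 0)
    rw [Nat.succ_eq_add_one, Function.iterate_succ_apply']
    set w : ℤ := (Tm d m r)^[p] x with hw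
    have hwY : Y ≤ |(w : ℝ)| := hn.1 p (by omega)
    obtain ⟨e1, e2⟩ := toNat_mod h.two_le w
    have hT : (d : ℝ) * ((Tm d m r w : ℤ) : ℝ) = (m (w % d).toNat : ℝ) * w - (r (w % d).toNat : ℝ) := by
      exact_mod_cast Tm_eq h w
    have hm := m_abs h e2
    have hr := hR _ e2
    have h1 : (d : ℝ) * |((Tm d m r w : ℤ) : ℝ)| = |(m (w % d).toNat : ℝ) * w - (r (w % d).toNat : ℝ)| := by
      rw [← hT, abs_mul, abs_of_pos hd0]
    have h2 := abs_sub_abs_le_abs_sub ((m (w % d).toNat : ℝ) * w) (r (w % d).toNat : ℝ)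
    rw [abs_mul] at h2
    have h3 : |(w : ℝ)| ≤ |(m (w % d).toNat : ℝ)| * |(w : ℝ)| := le_mul_of_one_le_left (abs_nonneg _) hm
    have h4 : 2 * (d : ℝ) * |((Tm d m r w : ℤ) : ℝ)| = 2 * (d * |((Tm d m r w : ℤ) : ℝ)|) := by ring
    rw [h4, h1]
    linarith

theorem SE_step {Y : ℝ} {E : Finset ℤ} {x : ℤ} (hx : x ∈ SE d m r Y E)
    (hT : Y ≤ |((Tm d m r x : ℤ) : ℝ)|) : Tm d m r x ∈ SE d m r Y E := by
  refine ⟨hT, fun n hn => ?_⟩
  have h1 := hx.2 (n + 1) ⟨?_, ?_⟩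
  · rwa [Function.iterate_succ_apply] at h1
  · intro j hj
    rcases j with _ | j
    · simpa using hx.1
    · rw [Function.iterate_succ_apply]
      exact hn.1 j (by omega)
  · rw [Function.iterate_succ_apply]
    exact hn.2

/-- the points of `S_E` where the invariance fails -/
theorem exists_leak (h : Adm d m r) {Y : ℝ} (hY : 1 ≤ Y) : ∃ L : Finset ℤ, (L.card : ℝ) ≤ 3 * d * Y ∧
    ∀ x : ℤ, |((Tm d m r x : ℤ) : ℝ)| < Y → x ∈ L := by
  classical
  set J : Finset ℤ := (Icc (-⌈Y⌉) ⌈Y⌉).filter (fun z => |(z : ℝ)| < Y) with hJ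
  have hJc : (J.card : ℝ) ≤ 3 * Y := by
    have h2 := ncard_trivial Y hY (J : Set ℤ) (fun x hx => by
      rw [mem_coe, hJ, mem_filter] at hx
      exact hx.2.le)
    rwa [Set.ncard_coe_finset] at h2
  have hfin : ∀ z : ℤ, {x : ℤ | Tm d m r x = z}.Finite := fun z => (pre_card h z 1).1
  refine ⟨J.biUnion fun z => (hfin z).toFinset, ?_, ?_⟩
  · have h1 : (J.biUnion fun z => (hfin z).toFinset).card ≤ ∑ z ∈ J, (hfin z).toFinset.card :=
      card_biUnion_le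
    have h2 : ∀ z ∈ J, (hfin z).toFinset.card ≤ d := by
      intro z _
      rw [← Set.ncard_eq_toFinset_card _ (hfin z)]
      have := (pre_card h z 1).2
      simpa using this
    have h3 := h1.trans (sum_le_card_nsmul J _ d h2)
    rw [smul_eq_mul] at h3
    have h4 : ((J.biUnion fun z => (hfin z).toFinset).card : ℝ) ≤ J.card * d := by exact_mod_cast h3
    have hd0 : (0 : ℝ) ≤ d := Nat.cast_nonneg d
    calc ((J.biUnion fun z => (hfin z).toFinset).card : ℝ) ≤ J.card * d := h4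
      _ ≤ (3 * Y) * d := mul_le_mul_of_nonneg_right hJc hd0
      _ = _ := by ring
  · intro x hx
    rw [mem_biUnion]
    refine ⟨Tm d m r x, ?_, ?_⟩
    · rw [hJ, mem_filter]
      exact ⟨mem_Icc_ceil hx, hx⟩
    · rw [Set.Finite.mem_toFinset]
      rfl

end Pool.Agent.U59.HB
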