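import Pool.Agent.U59.HB.Spread

/-! THE FIRST VALUES BELOW `Y` ARE SPREAD, for generalised Collatz maps of coprime type with
`∏ |m_i| < d ^ d`. -/

set_option autoImplicit false

namespace Pool.Agent.U59.HB

open Finset Pool.Agent.H319R3.GC Pool.Agent.H828R3.GP

variable {d : ℕ} {m r : ℕ → ℤ}

/-- a constant -/
noncomputable def CsE (d : ℕ) (R : ℝ) : ℝ := 26 ^ (d + 1) * (400 * R * d * d + 1)

/-- the density bound at the starting scales -/
theorem pb_baseE (h : Adm d m r) {R : ℝ} (hR : ∀ i < d, |(r i : ℝ)| ≤ R) (hR0 : 0 ≤ R) {s η : ℝ}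
    (hs : 0 ≤ s) (hη0 : 0 ≤ η) (hη1 : η < 1) (hsum : ∑ j ∈ range d, (|(m j : ℝ)| / d) ^ s ≤ (d : ℝ) ^ η)
    {y t₁ a : ℝ} (hy : 1 ≤ y) (ht₁ : 1 ≤ t₁) (ha : 0 < a) (hya : y ≤ 2 * a) (hat : Real.log a ≤ t₁)
    (hyt : 100 * t₁ ^ 2 * R * d ≤ y) {Q : ℕ} (hQ0 : 0 < Q) (hQ : (Q : ℝ) ≤ (2 * a / y) ^ (1 - η))
    (E : Finset ℤ) :
    PB (SE d m r y E) a Q (Cst d R s * t₁ ^ (2 * d + 5) * y ^ (-(1 - η)) +
      CsE d R * t₁ ^ (2 * d + 4) * (E.card * y ^ (-1 : ℝ))) := by
  classical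
  have hy0 : 0 < y := by linarith
  have hd2 := h.two_le
  have hdR : (2 : ℝ) ≤ d := by exact_mod_cast hd2
  have hd0 : (0 : ℝ) < d := by linarith
  have hQR : (0 : ℝ) < Q := by exact_mod_cast hQ0
  have hl2 := Real.log_two_gt_d9
  have hl2' := Real.log_two_lt_d9
  have hη' : 0 < 1 - η := by linarith
  intro c
  obtain ⟨l, hl1, hl3⟩ := exists_pow hd2 hy
  obtain ⟨k0, hk1, hk3⟩ := exists_pow hd2 (y := 2 * a) (by linarith)
  set k := k0 + 1 with hk
  have hkA : (d : ℝ) ^ k ≤ 2 * a * d := by rw [hk, pow_succ]; nlinarith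
  have hkA2 : 2 * a < (d : ℝ) ^ k := by rw [hk, pow_succ]; linarith
  have hlk : l < k := by
    have : (d : ℝ) ^ l < (d : ℝ) ^ k := by linarith
    exact (pow_lt_pow_iff_right₀ (by linarith)).1 this
  have hlogd : 1 / 2 ≤ Real.log d := by
    have := Real.log_le_log (by norm_num) hdR
    linarith
  have hkt : (k : ℝ) ≤ 5 * t₁ := by
    have h1 : (k0 : ℝ) * Real.log d ≤ Real.log (2 * a) := by
      rw [← Real.log_pow]
      exact Real.log_le_log (by positivity) hk1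
    rw [Real.log_mul (by norm_num) ha.ne'] at h1
    have h2 : (k0 : ℝ) * (1 / 2) ≤ k0 * Real.log d := mul_le_mul_of_nonneg_left hlogd (Nat.cast_nonneg _)
    rw [hk]; push_cast
    linarith
  have hkR : (1 : ℝ) ≤ k := by
    have : 1 ≤ k := by omega
    exact_mod_cast this
  have hk2 : (k : ℝ) * k ≤ 25 * t₁ ^ 2 := by nlinarith
  have ht2 : 1 ≤ t₁ ^ 2 := by nlinarith
  -- finset of the window
  set W : Set ℤ := {x : ℤ | x ∈ SE d m r y E ∧ a ≤ |(x : ℝ)| ∧ |(x : ℝ)| < 2 * a ∧ (Q : ℤ) ∣ x - c} with hW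
  have hWfin : W.Finite := by
    apply (I1_window_finite (SE d m r y E) (2 * a)).subset
    rintro x ⟨h1, -, h3, -⟩
    exact ⟨h1, h3⟩
  have hwc : wc (SE d m r y E) a Q c = (hWfin.toFinset.card : ℝ) := by
    unfold wc
    rw [← Set.ncard_eq_toFinset_card W hWfin]
  rw [hwc]
  set K : ℝ := (d : ℝ) ^ η with hK
  have hK1 : 1 ≤ K := Real.one_le_rpow (by linarith) hη0
  have hKd : K < d := by
    calc K = (d : ℝ) ^ η := rfl
      _ < (d : ℝ) ^ (1 : ℝ) := Real.rpow_lt_rpow_of_exponent_lt (by linarith) hη1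
      _ = d := Real.rpow_one _
  have hκ : K / d = (d : ℝ) ^ (-(1 - η)) := by
    rw [hK, show -(1 - η) = η - 1 by ring, Real.rpow_sub hd0, Real.rpow_one]
  have hκ0 : 0 < K / d := by positivity
  -- the small scales
  have hkl4 : 4 * ((k : ℝ) * k) * R ≤ (d : ℝ) ^ l := by
    have h1 : 4 * ((k : ℝ) * k) * R * d ≤ (d : ℝ) ^ l * d := by
      have h2 : 4 * ((k : ℝ) * k) * R * d ≤ 100 * t₁ ^ 2 * R * d := by
        apply mul_le_mul_of_nonneg_right _ hd0.le
        apply mul_le_mul_of_nonneg_right _ hR0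
        linarith
      linarith
    exact le_of_mul_le_mul_right h1 hd0
  have hyR : 4 * ((k : ℝ) * k) * R ≤ y := hkl4.trans hl1
  have hyR2 : 2 * R ≤ y := by
    refine le_trans ?_ hyR
    apply mul_le_mul_of_nonneg_right _ hR0
    nlinarith
  set A : Finset ℤ := (Ioc l k).biUnion (fun i => Pa d m r k i (k * k) Q c (St d m r i)) with hA
  set E' : Finset ℤ := E.filter (fun z => y ≤ 2 * d * |(z : ℝ)|) with hE'
  have hsub : hWfin.toFinset ⊆ A ∪ PY d m r (2 * a) y (k * k) Q c E' := by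
    intro x hx
    rw [Set.Finite.mem_toFinset] at hx
    obtain ⟨⟨hxy, hxE⟩, h2, h3, h4⟩ := hx
    by_cases hxA : x ∈ A
    · exact mem_union_left _ hxA
    apply mem_union_right
    have hxk : |(x : ℝ)| < (d : ℝ) ^ k := by linarith
    rw [hA] at hxA
    simp only [mem_biUnion, mem_Ioc, not_exists, not_and] at hxA
    obtain ⟨n, hn, hfp⟩ := descend h hR hR0 (k := k) (l := l) (x := x) (by
      refine le_trans ?_ hkl4
      apply mul_le_mul_of_nonneg_right _ hR0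
      nlinarith) hxk (by
      intro i hi hik n hn hfp hst
      apply hxA i ⟨hi, hik⟩
      unfold Pa
      rw [mem_filter]
      exact ⟨mem_Icc_of_abs hxk, hxk, h4, n, hn, hfp, hst⟩) (k - l) (by omega)
    have e : k - (k - l) = l := by omega
    rw [e] at hfp
    have hnk : n ≤ k * k := hn.trans (Nat.mul_le_mul_right _ (Nat.sub_le _ _))
    have hex : ∃ n, |(((Tm d m r)^[n] x : ℤ) : ℝ)| < y := ⟨n, lt_of_lt_of_le hfp.2 hl1⟩
    have hfn : Nat.find hex ≤ n := Nat.find_min' hex (lt_of_lt_of_le hfp.2 hl1)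
    have hFY : FY d m r y (Nat.find hex) x :=
      ⟨fun j hj => not_lt.1 (Nat.find_min hex hj), Nat.find_spec hex⟩
    unfold PY
    rw [mem_filter]
    refine ⟨mem_Icc_ceil h3, h3, h4, Nat.find hex, hfn.trans hnk, hFY, ?_⟩
    rw [hE', mem_filter]
    exact ⟨hxE _ hFY, entrance_large h hR hyR2 hxy hFY⟩
  have hcard : (hWfin.toFinset.card : ℝ) ≤ A.card + (PY d m r (2 * a) y (k * k) Q c E').card := by
    exact_mod_cast (card_le_card hsub).trans (card_union_le _ _)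
  refine hcard.trans ?_
  have hgoal : (Cst d R s * t₁ ^ (2 * d + 5) * y ^ (-(1 - η)) +
      CsE d R * t₁ ^ (2 * d + 4) * (E.card * y ^ (-1 : ℝ))) * (2 * a) / Q =
      Cst d R s * t₁ ^ (2 * d + 5) * y ^ (-(1 - η)) * (2 * a) / Q +
      CsE d R * t₁ ^ (2 * d + 4) * (E.card * y ^ (-1 : ℝ)) * (2 * a) / Q := by ring
  rw [hgoal]
  apply add_le_add
  · have hstay := card_bad h hR hR0 hs hK1 hsum hKd (k := k) (l := l) (q := Q) hQ0 c (by omega) hkl4
    refine hstay.trans ?_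
    -- `κ^k ≤ κ^l / Q`
    have hpk : ∀ n : ℕ, (K / d) ^ n = ((d : ℝ) ^ n) ^ (-(1 - η)) := by
      intro n
      rw [hκ, ← Real.rpow_natCast, ← Real.rpow_natCast (d : ℝ) n, ← Real.rpow_mul hd0.le,
        ← Real.rpow_mul hd0.le, mul_comm]
    have hkl : (K / d) ^ k ≤ (K / d) ^ l / Q := by
      rw [le_div_iff₀ hQR]
      have h1 : (K / d) ^ k ≤ (K / d) ^ l * (2 * a / y) ^ (-(1 - η)) := by
        rw [hpk, hpk, ← Real.mul_rpow (by positivity) (by positivity)]
        apply Real.rpow_le_rpow_of_nonpos (by positivity) _ (by linarith)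
        calc (d : ℝ) ^ l * (2 * a / y) ≤ y * (2 * a / y) :=
              mul_le_mul_of_nonneg_right hl1 (by positivity)
          _ = 2 * a := by field_simp
          _ ≤ _ := hkA2.le
      have h2 : (2 * a / y) ^ (-(1 - η)) * (2 * a / y) ^ (1 - η) = 1 := by
        rw [← Real.rpow_add (by positivity), neg_add_cancel, Real.rpow_zero]
      calc (K / d) ^ k * Q ≤ ((K / d) ^ l * (2 * a / y) ^ (-(1 - η))) * (2 * a / y) ^ (1 - η) :=
            mul_le_mul h1 hQ hQR.le (by positivity)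
        _ = (K / d) ^ l * ((2 * a / y) ^ (-(1 - η)) * (2 * a / y) ^ (1 - η)) := by ring
        _ = _ := by rw [h2, mul_one]
    have hly : (K / d) ^ l ≤ d * y ^ (-(1 - η)) := by
      rw [hpk]
      have h1 : y / d ≤ (d : ℝ) ^ l := by rw [div_le_iff₀ hd0]; linarith
      have h2 : ((d : ℝ) ^ l) ^ (-(1 - η)) ≤ (y / d) ^ (-(1 - η)) :=
        Real.rpow_le_rpow_of_nonpos (by positivity) h1 (by linarith)
      refine h2.trans ?_
      rw [Real.div_rpow hy0.le hd0.le, div_eq_mul_inv, mul_comm]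
      apply mul_le_mul_of_nonneg_right _ (Real.rpow_nonneg hy0.le _)
      rw [← Real.rpow_neg hd0.le, neg_neg]
      calc (d : ℝ) ^ (1 - η) ≤ (d : ℝ) ^ (1 : ℝ) :=
            Real.rpow_le_rpow_of_exponent_le (by linarith) (by linarith)
        _ = d := Real.rpow_one _
    set V : ℝ := (K / d) ^ l / Q with hV
    have hV0 : 0 < V := by positivity
    have h1 : 8 * ((k : ℝ) * k) * R * d * ((d : ℝ) ^ k * (K / d) ^ l) / Q + (d : ℝ) ^ k * (K / d) ^ k ≤
        (200 * R * d + 1) * t₁ ^ 2 * (2 * a * d) * V := by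
      have e1 : 8 * ((k : ℝ) * k) * R * d * ((d : ℝ) ^ k * (K / d) ^ l) / Q =
          8 * ((k : ℝ) * k) * R * d * (d : ℝ) ^ k * V := by rw [hV]; ring
      rw [e1]
      have e2 : (d : ℝ) ^ k * (K / d) ^ k ≤ (d : ℝ) ^ k * V := mul_le_mul_of_nonneg_left hkl (by positivity)
      have e3 : 8 * ((k : ℝ) * k) * R * d + 1 ≤ (200 * R * d + 1) * t₁ ^ 2 := by
        have e4 : 8 * ((k : ℝ) * k) * R * d ≤ 8 * (25 * t₁ ^ 2) * R * d := by
          apply mul_le_mul_of_nonneg_right _ hd0.le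
          apply mul_le_mul_of_nonneg_right _ hR0
          linarith
        nlinarith
      calc 8 * ((k : ℝ) * k) * R * d * (d : ℝ) ^ k * V + (d : ℝ) ^ k * (K / d) ^ k
          ≤ 8 * ((k : ℝ) * k) * R * d * (d : ℝ) ^ k * V + (d : ℝ) ^ k * V := by linarith
        _ = (8 * ((k : ℝ) * k) * R * d + 1) * (d : ℝ) ^ k * V := by ring
        _ ≤ ((200 * R * d + 1) * t₁ ^ 2) * (2 * a * d) * V := by
            apply mul_le_mul_of_nonneg_right _ hV0.le
            exact mul_le_mul e3 hkA (by positivity) (by positivity)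
    have h2 : ((k : ℝ) * k + 1) ^ (d + 1) ≤ (26 * t₁ ^ 2) ^ (d + 1) := by
      apply pow_le_pow_left₀ (by positivity)
      linarith
    calc (k : ℝ) * (3 * (2 * d) ^ s * (((k : ℝ) * k + 1) ^ (d + 1) *
        (8 * ((k : ℝ) * k) * R * d * ((d : ℝ) ^ k * (K / d) ^ l) / Q + (d : ℝ) ^ k * (K / d) ^ k)))
        ≤ (5 * t₁) * (3 * (2 * d) ^ s * ((26 * t₁ ^ 2) ^ (d + 1) *
          ((200 * R * d + 1) * t₁ ^ 2 * (2 * a * d) * V))) := by
          apply mul_le_mul hkt _ (by positivity) (by positivity)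
          apply mul_le_mul_of_nonneg_left _ (by positivity)
          exact mul_le_mul h2 h1 (by positivity) (by positivity)
      _ = (3 * (2 * d) ^ s * d * (5 * 26 ^ (d + 1) * (200 * R * d + 1))) * t₁ ^ (2 * d + 5) *
          (K / d) ^ l * (2 * a) / Q := by
          rw [hV, mul_pow, ← pow_mul]
          have e : t₁ ^ (2 * d + 5) = t₁ * t₁ ^ (2 * (d + 1)) * t₁ ^ 2 := by
            rw [← pow_succ', ← pow_add]; congr 1
          rw [e]
          ring
      _ ≤ (3 * (2 * d) ^ s * d * (5 * 26 ^ (d + 1) * (200 * R * d + 1))) * t₁ ^ (2 * d + 5) *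
          (d * y ^ (-(1 - η))) * (2 * a) / Q := by
          apply div_le_div_of_nonneg_right _ hQR.le
          apply mul_le_mul_of_nonneg_right _ (by positivity)
          exact mul_le_mul_of_nonneg_left hly (by positivity)
      _ = Cst d R s * t₁ ^ (2 * d + 5) * y ^ (-(1 - η)) * (2 * a) / Q := by
          unfold Cst; ring
  · have hPY := card_PY h hR hR0 (X₀ := 2 * a) (Y := y) (N := k * k) (q := Q) (by positivity) hy0 (by
      push_cast; exact hyR) hQ0 c E' (by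
      intro z hz
      rw [hE', mem_filter] at hz
      exact hz.2)
    refine hPY.trans ?_
    push_cast
    have hE'c : (E'.card : ℝ) ≤ E.card := by exact_mod_cast card_le_card (filter_subset _ _)
    have hQy : (Q : ℝ) * y ≤ 2 * a := by
      have h1 : (2 * a / y) ^ (1 - η) ≤ (2 * a / y) ^ (1 : ℝ) :=
        Real.rpow_le_rpow_of_exponent_le (by rw [le_div_iff₀ hy0]; linarith) (by linarith)
      rw [Real.rpow_one] at h1
      have h2 := hQ.trans h1
      rwa [le_div_iff₀ hy0] at h2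
    have h1 : 16 * ((k : ℝ) * k) * R * d * (2 * a) / (y * Q) + 1 ≤
        (400 * R * d * d + 1) * t₁ ^ 2 * (2 * a / (y * Q)) := by
      have e1 : 16 * ((k : ℝ) * k) * R * d * (2 * a) / (y * Q) =
          16 * ((k : ℝ) * k) * R * d * (2 * a / (y * Q)) := by ring
      have e2 : 1 ≤ 2 * a / (y * Q) := by
        rw [le_div_iff₀ (by positivity)]; linarith
      rw [e1]
      have e3 : 16 * ((k : ℝ) * k) * R * d + 1 ≤ (400 * R * d * d + 1) * t₁ ^ 2 := by
        have e4 : 16 * ((k : ℝ) * k) * R * d ≤ 16 * (25 * t₁ ^ 2) * R * d := by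
          apply mul_le_mul_of_nonneg_right _ hd0.le
          apply mul_le_mul_of_nonneg_right _ hR0
          linarith
        have e5 : 16 * (25 * t₁ ^ 2) * R * d ≤ 400 * R * d * d * t₁ ^ 2 := by
          have e6 : 0 ≤ 400 * R * d * t₁ ^ 2 := by positivity
          nlinarith
        nlinarith
      have e7 : 0 ≤ 2 * a / (y * Q) := by positivity
      calc 16 * ((k : ℝ) * k) * R * d * (2 * a / (y * Q)) + 1
          ≤ 16 * ((k : ℝ) * k) * R * d * (2 * a / (y * Q)) + 2 * a / (y * Q) := by linarith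
        _ = (16 * ((k : ℝ) * k) * R * d + 1) * (2 * a / (y * Q)) := by ring
        _ ≤ _ := mul_le_mul_of_nonneg_right e3 e7
    have h2 : ((k : ℝ) * k + 1) ^ (d + 1) ≤ (26 * t₁ ^ 2) ^ (d + 1) := by
      apply pow_le_pow_left₀ (by positivity)
      linarith
    calc (E'.card : ℝ) * (((k : ℝ) * k + 1) * (((k : ℝ) * k + 1) ^ d *
          (16 * ((k : ℝ) * k) * R * d * (2 * a) / (y * Q) + 1)))
        = E'.card * (((k : ℝ) * k + 1) ^ (d + 1) *
          (16 * ((k : ℝ) * k) * R * d * (2 * a) / (y * Q) + 1)) := by ring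
      _ ≤ E.card * ((26 * t₁ ^ 2) ^ (d + 1) *
          ((400 * R * d * d + 1) * t₁ ^ 2 * (2 * a / (y * Q)))) := by
          apply mul_le_mul hE'c _ (by positivity) (by positivity)
          exact mul_le_mul h2 h1 (by positivity) (by positivity)
      _ = _ := by
          unfold CsE
          rw [mul_pow, ← pow_mul, Real.rpow_neg_one]
          have e : t₁ ^ (2 * d + 4) = t₁ ^ (2 * (d + 1)) * t₁ ^ 2 := by
            rw [← pow_add]; congr 1
          rw [e]
          field_simp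

/-- all scales -/
theorem pb_allE (h : Adm d m r) {s η : ℝ}
    (hs : 0 ≤ s) (hη0 : 0 ≤ η) (hη1 : η < 1) (hsum : ∑ j ∈ range d, (|(m j : ℝ)| / d) ^ s ≤ (d : ℝ) ^ η)
    {c ε : ℝ} (hc0 : 0 < c) (hc : c < 1 - η) (hε : 0 < ε) : ∃ K : ℝ, 0 < K ∧ ∃ Y₀ : ℝ, 2 ≤ Y₀ ∧
    ∀ y : ℝ, Y₀ ≤ y → ∀ E : Finset ℤ, ∀ a : ℝ, 0 < a →
      PB (SE d m r y E) a 1 (K * (y ^ (-c) + E.card * y ^ (ε - 1))) := by
  classical
  have hd2 := h.two_le
  have hdR : (2 : ℝ) ≤ d := by exact_mod_cast hd2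
  have hd0 : (0 : ℝ) < d := by linarith
  have hη' : 0 < 1 - η := by linarith
  obtain ⟨R, hR0, hR⟩ : ∃ R : ℝ, 0 ≤ R ∧ ∀ i < d, |(r i : ℝ)| ≤ R := by
    refine ⟨∑ i ∈ range d, |(r i : ℝ)|, sum_nonneg fun _ _ => abs_nonneg _, fun i hi => ?_⟩
    exact Finset.single_le_sum (f := fun i => |(r i : ℝ)|) (fun j _ => abs_nonneg _)
      (mem_range.2 hi)
  have hPR2 : (2 : ℝ) ≤ PP d m := by exact_mod_cast h.big
  have hlP : 0 < Real.log (PP d m) := Real.log_pos (by linarith)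
  have hP0 : 0 < PP d m := by have := h.big; omega
  set γ : ℝ := min ((1 - η - c) / (2 * d + 6)) (ε / (2 * d + 6)) with hγ
  have hγ0 : 0 < γ := lt_min (by apply div_pos (by linarith) (by positivity)) (by positivity)
  have hγm : γ * (2 * d + 6) ≤ 1 - η - c := by
    have h1 : γ ≤ (1 - η - c) / (2 * d + 6) := min_le_left _ _
    rwa [le_div_iff₀ (by positivity)] at h1
  have hγε : γ * (2 * d + 6) ≤ ε := by
    have h1 : γ ≤ ε / (2 * d + 6) := min_le_right _ _
    rwa [le_div_iff₀ (by positivity)] at h1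
  have hγ10 : γ * 10 ≤ 1 := by nlinarith
  obtain ⟨B, hB⟩ := exists_nat_ge (c / γ)
  have hBγ : c ≤ γ * (B + 1 : ℕ) := by
    rw [div_le_iff₀ hγ0] at hB
    push_cast
    nlinarith
  obtain ⟨lo, hi, ν, L₀, C, hνν, hlo, hlh, hhi, hν, hL₀, hC, hst⟩ :=
    stage'' h (B + 1) ((1 - η) / (2 * Real.log (PP d m))) (by positivity)
  have hlo1 : lo < 1 := by linarith
  have hhi0 : 0 < hi := hlo.trans_le hlh
  have hq1 : 1 < (1 / hi) ^ (B + 1) := by
    apply one_lt_pow₀ _ (by omega)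
    rw [one_lt_div hhi0]; exact hhi
  set C₁ : ℝ := C / ((1 / hi) ^ (B + 1) - 1) with hC₁
  have hC₁0 : 0 < C₁ := div_pos hC (by linarith)
  have hCst : 0 ≤ Cst d R s := by unfold Cst; positivity
  have hCsE : 0 ≤ CsE d R := by unfold CsE; positivity
  have e1 : ∀ᶠ y : ℝ in Filter.atTop, max L₀ 1 ≤ y ^ γ :=
    (tendsto_rpow_atTop hγ0).eventually_ge_atTop _
  have e2 : ∀ᶠ y : ℝ in Filter.atTop, ‖Real.log y‖ ≤ (lo / 2) * ‖y ^ γ‖ :=
    (isLittleO_log_rpow_atTop hγ0).bound (by positivity)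
  have e2' : ∀ᶠ y : ℝ in Filter.atTop, ‖Real.log y‖ ≤ (1 / 48) * ‖y ^ γ‖ :=
    (isLittleO_log_rpow_atTop hγ0).bound (by positivity)
  have e2'' : ∀ᶠ y : ℝ in Filter.atTop, 48 * Real.log (3 * d) ≤ y ^ γ :=
    (tendsto_rpow_atTop hγ0).eventually_ge_atTop _
  have e3 : ∀ᶠ y : ℝ in Filter.atTop, 100 * R * d ≤ y ^ ((1 : ℝ) / 2) :=
    (tendsto_rpow_atTop (by norm_num)).eventually_ge_atTop _
  obtain ⟨Y₁, hY₁⟩ := Filter.eventually_atTop.1 ((((e1.and e2).and e3).and e2').and e2'')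
  refine ⟨Cst d R s + CsE d R + C₁ * (1 / lo) ^ (B + 1) + 1, by positivity, max Y₁ 2, le_max_right _ _, ?_⟩
  intro y hyY E a ha
  obtain ⟨⟨⟨⟨h1, h2⟩, h3⟩, h2'⟩, h2''⟩ := hY₁ y (le_trans (le_max_left _ _) hyY)
  have hy2 : 2 ≤ y := le_trans (le_max_right _ _) hyY
  have hy0 : 0 < y := by linarith
  set t₁ := y ^ γ with ht₁
  have ht1 : 1 ≤ t₁ := le_trans (le_max_right _ _) h1
  have htL : L₀ ≤ t₁ := le_trans (le_max_left _ _) h1
  have ht0 : 0 < t₁ := by linarith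
  have hlogy : Real.log y ≤ lo / 2 * t₁ := by
    rw [Real.norm_eq_abs, Real.norm_eq_abs, abs_of_pos ht0] at h2
    exact (le_abs_self _).trans h2
  have hlogy' : Real.log y ≤ 1 / 48 * t₁ := by
    rw [Real.norm_eq_abs, Real.norm_eq_abs, abs_of_pos ht0] at h2'
    exact (le_abs_self _).trans h2'
  have hlogy0 : 0 ≤ Real.log y := Real.log_nonneg (by linarith)
  have hyt : 100 * t₁ ^ 2 * R * d ≤ y := by
    have h4 : t₁ ^ 2 ≤ y ^ ((1 : ℝ) / 2) := by
      rw [ht₁, ← Real.rpow_natCast, ← Real.rpow_mul hy0.le]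
      apply Real.rpow_le_rpow_of_exponent_le (by linarith)
      push_cast
      linarith
    have h5 : y ^ ((1 : ℝ) / 2) * y ^ ((1 : ℝ) / 2) = y := by
      rw [← Real.rpow_add hy0]; norm_num
    calc 100 * t₁ ^ 2 * R * d = (100 * R * d) * t₁ ^ 2 := by ring
      _ ≤ y ^ ((1 : ℝ) / 2) * y ^ ((1 : ℝ) / 2) := mul_le_mul h3 h4 (by positivity) (by positivity)
      _ = y := h5
  have hyc : 0 < y ^ (-c) := Real.rpow_pos_of_pos hy0 _
  have hyE : 0 ≤ (E.card : ℝ) * y ^ (ε - 1) := by positivity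
  set ρ₀ : ℝ := Cst d R s * t₁ ^ (2 * d + 5) * y ^ (-(1 - η)) +
      CsE d R * t₁ ^ (2 * d + 4) * (E.card * y ^ (-1 : ℝ)) with hρ₀
  have hρ : ρ₀ ≤ Cst d R s * y ^ (-c) + CsE d R * (E.card * y ^ (ε - 1)) := by
    rw [hρ₀]
    apply add_le_add
    · rw [mul_assoc]
      apply mul_le_mul_of_nonneg_left _ hCst
      rw [ht₁, ← Real.rpow_natCast, ← Real.rpow_mul hy0.le, ← Real.rpow_add hy0]
      apply Real.rpow_le_rpow_of_exponent_le (by linarith)
      push_cast
      nlinarith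
    · rw [mul_assoc]
      apply mul_le_mul_of_nonneg_left _ hCsE
      have h6 : t₁ ^ (2 * d + 4) * (E.card * y ^ (-1 : ℝ)) = E.card * (t₁ ^ (2 * d + 4) * y ^ (-1 : ℝ)) := by
        ring
      rw [h6]
      apply mul_le_mul_of_nonneg_left _ (Nat.cast_nonneg _)
      rw [ht₁, ← Real.rpow_natCast, ← Real.rpow_mul hy0.le, ← Real.rpow_add hy0]
      apply Real.rpow_le_rpow_of_exponent_le (by linarith)
      push_cast
      nlinarith
  have hρ0 : 0 ≤ ρ₀ := by rw [hρ₀]; positivity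
  obtain ⟨L, hLc, hLm⟩ := exists_leak h (Y := y) (by linarith)
  have hST : ∀ x ∈ SE d m r y E, x ∉ L → Tm d m r x ∈ SE d m r y E := by
    intro x hx hxL
    apply SE_step hx
    by_contra hcon
    exact hxL (hLm x (not_le.1 hcon))
  have hLexp : ∀ a : ℝ, t₁ ≤ Real.log a → (L.card : ℝ) ≤ Real.exp (Real.log a / 24) := by
    intro a hta
    refine hLc.trans ?_
    have h7 : 3 * d * y = Real.exp (Real.log (3 * d) + Real.log y) := by
      rw [Real.exp_add, Real.exp_log (by positivity), Real.exp_log hy0]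
    rw [h7]
    apply Real.exp_le_exp.2
    linarith
  have hD0 : 0 ≤ C₁ * (1 / lo) ^ (B + 1) * y ^ (-c) := by positivity
  have hfin : ∀ ρ : ℝ, ρ ≤ ρ₀ + C₁ * (1 / lo) ^ (B + 1) * y ^ (-c) →
      ρ ≤ (Cst d R s + CsE d R + C₁ * (1 / lo) ^ (B + 1) + 1) * (y ^ (-c) + E.card * y ^ (ε - 1)) := by
    intro ρ h8
    have h9 : 0 ≤ CsE d R * y ^ (-c) := by positivity
    have h10 : 0 ≤ (Cst d R s + C₁ * (1 / lo) ^ (B + 1) + 1) * (E.card * y ^ (ε - 1)) := by positivity
    nlinarith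
  rcases le_or_gt (2 * a) y with hsm | hbig
  · intro c'
    have h0 : {x : ℤ | x ∈ SE d m r y E ∧ a ≤ |(x : ℝ)| ∧ |(x : ℝ)| < 2 * a ∧ ((1 : ℕ) : ℤ) ∣ x - c'} = ∅ := by
      ext x
      simp only [Set.mem_ofPred_eq, Set.mem_empty_iff_false, iff_false]
      rintro ⟨h1, -, h3, -⟩
      have := h1.1
      linarith
    unfold wc
    rw [h0, Set.ncard_empty, Nat.cast_zero]
    positivity
  rcases le_or_gt (Real.log a) t₁ with hcase | hcase
  · have h5 := pb_baseE h hR hR0 hs hη0 hη1 hsum (y := y) (t₁ := t₁) (a := a) (by linarith) ht1 ha hbig.le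
      hcase hyt (Q := 1) one_pos (by
        rw [Nat.cast_one]
        apply Real.one_le_rpow _ hη'.le
        rw [le_div_iff₀ hy0]; linarith) E
    exact I1_PB_mono ha h5 (hfin _ (by linarith))
  · have h5 := restart (S := SE d m r y E) (B := B + 1) (P := PP d m) (lo := lo) (hi := hi) (ν := ν)
      (L₀ := t₁) (C := C) (by omega) hlo hlh hhi hC
      (fun a ρ ha hla hρ hyp => hst L (SE d m r y E) hST a ρ ha (htL.trans hla) (hLexp a hla) hρ hyp)
      (t₁ := t₁) (ρ₀ := ρ₀) le_rfl ht0 hρ0 (by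
        intro a' ha' hl1 hl2
        have hly : Real.log y ≤ Real.log a' / 2 := by linarith
        have hla0 : 0 ≤ Real.log a' := by linarith
        apply pb_baseE h hR hR0 hs hη0 hη1 hsum (by linarith) ht1 ha' _ hl2 hyt (pow_pos hP0 _) _ E
        · have : Real.log y ≤ Real.log a' := by linarith
          have := (Real.log_le_log_iff hy0 ha').1 this
          linarith
        · rw [← Real.log_le_log_iff (by positivity) (by positivity)]
          rw [Nat.cast_pow, Real.log_pow, Real.log_rpow (by positivity), Real.log_div (by positivity)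
            hy0.ne', Real.log_mul (by norm_num) ha'.ne']
          have hfl : (⌊ν * Real.log a'⌋₊ : ℝ) ≤ ν * Real.log a' := Nat.floor_le (by positivity)
          have hl2p : 0 < Real.log 2 := Real.log_pos (by norm_num)
          calc (⌊ν * Real.log a'⌋₊ : ℝ) * Real.log (PP d m) ≤ ν * Real.log a' * Real.log (PP d m) :=
                mul_le_mul_of_nonneg_right hfl hlP.le
            _ ≤ (1 - η) / (2 * Real.log (PP d m)) * Real.log a' * Real.log (PP d m) := by
                apply mul_le_mul_of_nonneg_right _ hlP.le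
                exact mul_le_mul_of_nonneg_right hνν hla0
            _ = (1 - η) * (Real.log a' / 2) := by field_simp
            _ ≤ (1 - η) * (Real.log 2 + Real.log a' - Real.log y) := by
                apply mul_le_mul_of_nonneg_left _ hη'.le
                linarith) a ha (by nlinarith)
    have h6 := PB.coarse ha (pow_pos hP0 _) (one_dvd _) h5
    refine I1_PB_mono ha h6 (hfin _ ?_)
    have h7 : C₁ * (1 / (lo * t₁)) ^ (B + 1) ≤ C₁ * (1 / lo) ^ (B + 1) * y ^ (-c) := by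
      have e4 : (1 / (lo * t₁)) ^ (B + 1) = (1 / lo) ^ (B + 1) * (1 / t₁) ^ (B + 1) := by
        rw [← mul_pow]; congr 1; field_simp
      rw [e4, ← mul_assoc]
      apply mul_le_mul_of_nonneg_left _ (by positivity)
      rw [one_div, inv_pow, ht₁, ← Real.rpow_natCast, ← Real.rpow_mul hy0.le, ← Real.rpow_neg hy0.le]
      apply Real.rpow_le_rpow_of_exponent_le (by linarith)
      linarith
    linarith

/-- THE FIRST VALUES BELOW `Y` ARE SPREAD -/
theorem spread (h : Adm d m r) {s η : ℝ}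
    (hs : 0 ≤ s) (hη0 : 0 ≤ η) (hη1 : η < 1) (hsum : ∑ j ∈ range d, (|(m j : ℝ)| / d) ^ s ≤ (d : ℝ) ^ η)
    {c ε : ℝ} (hc0 : 0 < c) (hc : c < 1 - η) (hε : 0 < ε) : ∃ C : ℝ, 0 < C ∧
    ∀ (E : Finset ℤ) (X Y : ℝ), 1 ≤ X → 1 ≤ Y →
    ({x : ℤ | |(x : ℝ)| ≤ X ∧ x ∈ SE d m r Y E}.ncard : ℝ) ≤
      C * X * (Y ^ (-c) + E.card * Y ^ (ε - 1)) := by
  obtain ⟨K, hK, Y₀, hY₀, hpb⟩ := pb_allE h hs hη0 hη1 hsum hc0 hc hε
  refine ⟨4 * K + 3 * Y₀, by linarith, fun E X y hX hy => ?_⟩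
  have hy0 : 0 < y := by linarith
  have hyc : 0 < y ^ (-c) := Real.rpow_pos_of_pos hy0 _
  have hyE : 0 ≤ (E.card : ℝ) * y ^ (ε - 1) := by positivity
  have hc1 : c ≤ 1 := by linarith
  have hX0 : 0 < X := by linarith
  rcases lt_or_ge y Y₀ with hsm | hbig
  · have h1 := ncard_trivial X hX
      {x : ℤ | |(x : ℝ)| ≤ X ∧ x ∈ SE d m r y E} (fun x hx => hx.1)
    refine h1.trans ?_
    have h4 : y ^ c ≤ Y₀ := by
      calc y ^ c ≤ y ^ (1 : ℝ) := Real.rpow_le_rpow_of_exponent_le hy hc1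
        _ = y := Real.rpow_one _
        _ ≤ Y₀ := hsm.le
    have h5 : y ^ c * y ^ (-c) = 1 := by rw [← Real.rpow_add hy0, add_neg_cancel, Real.rpow_zero]
    have h6 : 1 ≤ Y₀ * y ^ (-c) := by
      rw [← h5]; exact mul_le_mul_of_nonneg_right h4 hyc.le
    calc 3 * X = 3 * X * 1 := by ring
      _ ≤ 3 * X * (Y₀ * y ^ (-c)) := mul_le_mul_of_nonneg_left h6 (by positivity)
      _ ≤ (4 * K + 3 * Y₀) * X * (y ^ (-c) + E.card * y ^ (ε - 1)) := by
          have h7 : 0 ≤ 4 * K * X * (y ^ (-c) + E.card * y ^ (ε - 1)) := by positivity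
          have h8 : 0 ≤ 3 * Y₀ * X * (E.card * y ^ (ε - 1)) := by positivity
          nlinarith
  · have hS : ∀ x ∈ SE d m r y E, y / 2 < |(x : ℝ)| := fun x hx => by
      have := hx.1
      linarith
    have hρ0 : 0 ≤ K * (y ^ (-c) + E.card * y ^ (ε - 1)) := by positivity
    obtain ⟨n, hn⟩ := pow_unbounded_of_one_lt (2 * X) (show (1 : ℝ) < 2 by norm_num)
    have h1 := I1_sum hS hρ0 (fun a _ ha => hpb y hbig E a ha) n (2 * X) (by linarith) (by
      have : (2 : ℝ) ^ n ≤ y / 2 * 2 ^ n := le_mul_of_one_le_left (by positivity) (by linarith)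
      linarith)
    have hfin1 : {x : ℤ | |(x : ℝ)| ≤ X ∧ x ∈ SE d m r y E} ⊆
        {x : ℤ | x ∈ SE d m r y E ∧ |(x : ℝ)| < 2 * X} := by
      rintro x ⟨h1, h2⟩
      exact ⟨h2, by linarith⟩
    have h2 := Set.ncard_le_ncard hfin1 (I1_window_finite _ _)
    have h3 : ({x : ℤ | |(x : ℝ)| ≤ X ∧ x ∈ SE d m r y E}.ncard : ℝ) ≤
        ({x : ℤ | x ∈ SE d m r y E ∧ |(x : ℝ)| < 2 * X}.ncard : ℝ) := by exact_mod_cast h2
    refine (h3.trans h1).trans ?_
    have h4 : 0 ≤ 3 * Y₀ * X * (y ^ (-c) + E.card * y ^ (ε - 1)) := by positivity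
    nlinarith

end Pool.Agent.U59.HB
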