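import Pool.Agent.U59.HB.Cons

/-! Tuples of trajectories merging above `Y`. -/

set_option autoImplicit false

namespace Pool.Agent.U59.HB

open Finset Pool.Agent.H319R3.GC Pool.Agent.H828R3.GP

variable {d : ℕ} {m r : ℕ → ℤ}

open Classical in
/-- the first value of modulus `< Y` -/
noncomputable def ent (d : ℕ) (m r : ℕ → ℤ) (Y : ℝ) (x : ℤ) : Option ℤ :=
  if hx : ∃ k, FY d m r Y k x then some ((Tm d m r)^[hx.choose] x) else none

theorem ent_some {Y : ℝ} {x : ℤ} {k : ℕ} (hk : FY d m r Y k x) :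
    ent d m r Y x = some ((Tm d m r)^[k] x) := by
  have hex : ∃ k, FY d m r Y k x := ⟨k, hk⟩
  unfold ent
  rw [dif_pos hex, FY_unique hex.choose_spec hk]

theorem ent_none {Y : ℝ} {x : ℤ} (hk : ¬ ∃ k, FY d m r Y k x) : ent d m r Y x = none := by
  unfold ent
  rw [dif_neg hk]

theorem ent_eq {Y : ℝ} {x x' z : ℤ} {n n' : ℕ} (hx : (Tm d m r)^[n] x = z)
    (hx2 : ∀ j ≤ n, Y ≤ |(((Tm d m r)^[j] x : ℤ) : ℝ)|) (hx' : (Tm d m r)^[n'] x' = z)
    (hx2' : ∀ j ≤ n', Y ≤ |(((Tm d m r)^[j] x' : ℤ) : ℝ)|) : ent d m r Y x = ent d m r Y x' := by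
  by_cases h : ∃ k, FY d m r Y k x
  · obtain ⟨k, hk⟩ := h
    obtain ⟨k', hk', he⟩ := same_entrance hx hx2 hx' hx2' hk
    rw [ent_some hk, ent_some hk', he]
  · have h' : ¬ ∃ k, FY d m r Y k x' := by
      rintro ⟨k, hk⟩
      obtain ⟨k', hk', -⟩ := same_entrance hx' hx2' hx hx2 hk
      exact h ⟨k', hk'⟩
    rw [ent_none h, ent_none h']

theorem sum_pow_le {ι : Type*} (s : Finset ι) (a : ι → ℝ) (ha : ∀ i ∈ s, 0 ≤ a i) {ν : ℕ} (hν : 1 ≤ ν) :
    ∑ i ∈ s, a i ^ ν ≤ (∑ i ∈ s, a i) ^ ν := by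
  obtain ⟨k, rfl⟩ := Nat.exists_eq_add_of_le hν
  have h0 : 0 ≤ ∑ i ∈ s, a i := sum_nonneg ha
  calc ∑ i ∈ s, a i ^ (1 + k) ≤ ∑ i ∈ s, a i * (∑ i ∈ s, a i) ^ k := by
        refine sum_le_sum fun i hi => ?_
        rw [pow_add, pow_one]
        exact mul_le_mul_of_nonneg_left (pow_le_pow_left₀ (ha i hi) (single_le_sum ha hi) k) (ha i hi)
    _ = _ := by rw [← sum_mul, pow_add, pow_one]

/-- MERGING TUPLES -/
theorem tuples (h : Adm d m r) {c ε : ℝ} (hc : Adc d m c) (hε : 0 < ε) : ∃ C : ℝ, 0 < C ∧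
    ∀ X Y : ℝ, 1 ≤ X → 1 ≤ Y → ∀ ν : ℕ, 2 ≤ ν →
      ({x : Fin ν → ℤ | (∀ i, |(x i : ℝ)| ≤ X) ∧ Merge d m r Y x}.ncard : ℝ) ≤
        (C * X) ^ ν * ((Y ^ (-c)) ^ ν + (Y ^ (ε - 1)) ^ (ν - 1)) := by
  classical
  obtain ⟨s, η, hs, hη0, hηc, hsum, hsum'⟩ := hc.split h.two_le
  obtain ⟨hc0, hc1, -⟩ := hc
  obtain ⟨C, hC, hsp⟩ := spread h hs hη0 (by linarith) hsum hc0 (by linarith) hε
  refine ⟨2 * C + 3, by positivity, fun X Y hX hY ν hν => ?_⟩
  have hX0 : 0 < X := by linarith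
  have hY0 : 0 < Y := by linarith
  have hYc : 0 < Y ^ (-c) := Real.rpow_pos_of_pos hY0 _
  have hYe : 0 < Y ^ (ε - 1) := Real.rpow_pos_of_pos hY0 _
  set B : Finset ℤ := (fin_abs X (fun x => Y ≤ |(x : ℝ)|)).toFinset with hB
  have hBm : ∀ x, x ∈ B ↔ |(x : ℝ)| ≤ X ∧ Y ≤ |(x : ℝ)| := by
    intro x; rw [hB, Set.Finite.mem_toFinset]; rfl
  set e : ℤ → Option ℤ := ent d m r Y with he
  set N : Option ℤ → ℝ := fun o => ((B.filter (fun x => e x = o)).card : ℝ) with hN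
  have hN0 : ∀ o, 0 ≤ N o := fun o => Nat.cast_nonneg _
  set H : ℝ := C * X with hH
  have hH0 : 0 < H := by positivity
  -- the bound for finite sets of values
  have hkey : ∀ O : Finset (Option ℤ), ∑ o ∈ O, N o ≤ H * (Y ^ (-c) + O.card * Y ^ (ε - 1)) := by
    intro O
    have h1 : ∑ o ∈ O, N o = ((O.biUnion fun o => B.filter (fun x => e x = o)).card : ℝ) := by
      rw [card_biUnion]
      · push_cast; rfl
      · intro o _ o' _ hne
        rw [Function.onFun, Finset.disjoint_left]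
        intro x hx hx'
        rw [mem_filter] at hx hx'
        exact hne (hx.2.symm.trans hx'.2)
    rw [h1]
    have h2 : ((O.biUnion fun o => B.filter (fun x => e x = o) : Finset ℤ) : Set ℤ) ⊆
        {x : ℤ | |(x : ℝ)| ≤ X ∧ x ∈ SE d m r Y (Finset.eraseNone O)} := by
      intro x hx
      rw [mem_coe, mem_biUnion] at hx
      obtain ⟨o, ho, hx⟩ := hx
      rw [mem_filter] at hx
      obtain ⟨h3, h4⟩ := (hBm x).1 hx.1
      refine ⟨h3, h4, fun n hn => ?_⟩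
      rw [Finset.mem_eraseNone]
      have h5 : e x = some ((Tm d m r)^[n] x) := ent_some hn
      rw [← h5, hx.2]
      exact ho
    have h3 := Set.ncard_le_ncard h2 (fin_abs X _)
    rw [Set.ncard_coe_finset] at h3
    have h4 : ((O.biUnion fun o => B.filter (fun x => e x = o)).card : ℝ) ≤
        ({x : ℤ | |(x : ℝ)| ≤ X ∧ x ∈ SE d m r Y (Finset.eraseNone O)}.ncard : ℝ) := by exact_mod_cast h3
    refine (h4.trans (hsp _ X Y hX hY)).trans ?_
    apply mul_le_mul_of_nonneg_left _ hH0.le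
    have h5 : ((Finset.eraseNone O).card : ℝ) ≤ O.card := by
      exact_mod_cast Finset.card_eraseNone_le O
    have h6 := mul_le_mul_of_nonneg_right h5 hYe.le
    linarith
  set O : Finset (Option ℤ) := B.image e with hO
  have hsumB : ∑ o ∈ O, N o ≤ 3 * X := by
    have h1 : ∑ o ∈ O, N o = (B.card : ℝ) := by
      rw [Finset.card_eq_sum_card_image e B]
      push_cast; rfl
    rw [h1]
    have h2 := ncard_trivial X hX (B : Set ℤ) (fun x hx => ((hBm x).1 hx).1)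
    rwa [Set.ncard_coe_finset] at h2
  set G : Finset (Option ℤ) := O.filter (fun o => 2 * H * Y ^ (ε - 1) < N o) with hG
  have hGsum : ∑ o ∈ G, N o ≤ 2 * H * Y ^ (-c) := by
    have h1 := hkey G
    have h2 : (G.card : ℝ) * (2 * H * Y ^ (ε - 1)) ≤ ∑ o ∈ G, N o := by
      rw [← nsmul_eq_mul]
      apply card_nsmul_le_sum
      intro o ho
      exact (mem_filter.1 ho).2.le
    nlinarith
  -- the count
  have hsub : {x : Fin ν → ℤ | (∀ i, |(x i : ℝ)| ≤ X) ∧ Merge d m r Y x} ⊆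
      ((O.biUnion fun o => Fintype.piFinset fun _ : Fin ν => B.filter (fun x => e x = o) :
        Finset (Fin ν → ℤ)) : Set (Fin ν → ℤ)) := by
    rintro x ⟨hx, z, hz⟩
    have hxB : ∀ i, x i ∈ B := by
      intro i
      obtain ⟨n, -, h2⟩ := hz i
      rw [hBm]
      exact ⟨hx i, by simpa using h2 0 (Nat.zero_le _)⟩
    have i0 : Fin ν := ⟨0, by omega⟩
    rw [mem_coe, mem_biUnion]
    refine ⟨e (x i0), mem_image_of_mem _ (hxB i0), ?_⟩
    rw [Fintype.mem_piFinset]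
    intro i
    rw [mem_filter]
    refine ⟨hxB i, ?_⟩
    obtain ⟨n, h1, h2⟩ := hz i
    obtain ⟨n', h1', h2'⟩ := hz i0
    exact ent_eq h1 h2 h1' h2'
  have h1 := Set.ncard_le_ncard hsub (Finset.finite_toSet _)
  rw [Set.ncard_coe_finset] at h1
  have h2 : ({x : Fin ν → ℤ | (∀ i, |(x i : ℝ)| ≤ X) ∧ Merge d m r Y x}.ncard : ℝ) ≤ ∑ o ∈ O, N o ^ ν := by
    have h3 : ((O.biUnion fun o => Fintype.piFinset fun _ : Fin ν => B.filter (fun x => e x = o)).card) ≤
        ∑ o ∈ O, (B.filter (fun x => e x = o)).card ^ ν := by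
      refine card_biUnion_le.trans (le_of_eq (sum_congr rfl fun o _ => ?_))
      rw [Fintype.card_piFinset, prod_const, card_univ, Fintype.card_fin]
    have h4 := h1.trans h3
    calc ({x : Fin ν → ℤ | (∀ i, |(x i : ℝ)| ≤ X) ∧ Merge d m r Y x}.ncard : ℝ)
        ≤ ((∑ o ∈ O, (B.filter (fun x => e x = o)).card ^ ν : ℕ) : ℝ) := by exact_mod_cast h4
      _ = ∑ o ∈ O, N o ^ ν := by push_cast; rfl
  refine h2.trans ?_
  rw [← Finset.sum_filter_add_sum_filter_not O (fun o => 2 * H * Y ^ (ε - 1) < N o), mul_add]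
  apply add_le_add
  · refine (sum_pow_le _ _ (fun o _ => hN0 o) (by omega)).trans ?_
    rw [← mul_pow]
    apply pow_le_pow_left₀ (sum_nonneg fun o _ => hN0 o)
    refine hGsum.trans ?_
    have : 0 ≤ X * Y ^ (-c) := by positivity
    calc 2 * H * Y ^ (-c) = 2 * C * (X * Y ^ (-c)) := by rw [hH]; ring
      _ ≤ (2 * C + 3) * (X * Y ^ (-c)) := mul_le_mul_of_nonneg_right (by linarith) this
      _ = _ := by ring
  · obtain ⟨k, rfl⟩ := Nat.exists_eq_add_of_le (show 1 ≤ ν by omega)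
    have h5 : ∀ o ∈ O.filter (fun o => ¬ 2 * H * Y ^ (ε - 1) < N o), N o ^ (1 + k) ≤
        N o * (2 * H * Y ^ (ε - 1)) ^ k := by
      intro o ho
      rw [pow_add, pow_one]
      exact mul_le_mul_of_nonneg_left (pow_le_pow_left₀ (hN0 o) (not_lt.1 (mem_filter.1 ho).2) k) (hN0 o)
    have h6 : ∑ o ∈ O.filter (fun o => ¬ 2 * H * Y ^ (ε - 1) < N o), N o ≤ 3 * X :=
      (sum_le_sum_of_subset_of_nonneg (filter_subset _ _) fun o _ _ => hN0 o).trans hsumB
    have h7 : 1 + k - 1 = k := by omega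
    rw [h7]
    calc ∑ o ∈ O.filter (fun o => ¬ 2 * H * Y ^ (ε - 1) < N o), N o ^ (1 + k)
        ≤ ∑ o ∈ O.filter (fun o => ¬ 2 * H * Y ^ (ε - 1) < N o), N o * (2 * H * Y ^ (ε - 1)) ^ k :=
          sum_le_sum h5
      _ = (∑ o ∈ O.filter (fun o => ¬ 2 * H * Y ^ (ε - 1) < N o), N o) * (2 * H * Y ^ (ε - 1)) ^ k := by
          rw [sum_mul]
      _ ≤ (3 * X) * (2 * H * Y ^ (ε - 1)) ^ k := mul_le_mul_of_nonneg_right h6 (by positivity)
      _ = (3 * X) * (2 * C * X) ^ k * (Y ^ (ε - 1)) ^ k := by rw [hH, ← mul_assoc, mul_pow]; ring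
      _ ≤ ((2 * C + 3) * X) * ((2 * C + 3) * X) ^ k * (Y ^ (ε - 1)) ^ k := by
          apply mul_le_mul_of_nonneg_right _ (by positivity)
          apply mul_le_mul
          · apply mul_le_mul_of_nonneg_right _ hX0.le
            linarith
          · apply pow_le_pow_left₀ (by positivity)
            apply mul_le_mul_of_nonneg_right _ hX0.le
            linarith
          · positivity
          · positivity
      _ = _ := by rw [pow_add, pow_one]

end Pool.Agent.U59.HB
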